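import Pool.Agent.H87.QL.Op
import Pool.Agent.H87.QL.Cpt

/-!
# Module Fin: quasi Lipschitz propagation for the Landau equation

Structure of the proof: `qh` in Pool/Agent/H87/QH/FinQ.lean. `q = d+12`, `P = d+15`. `Cp N = |Cl N|`. `ε₁, K₂` from `op_L Cp m N`. `C₁ = (d+1)^P Cp(2P)`: `f t x v ≤ C₁ Wp P v ≤ C₁ Wp q v`. `Γ₁ = |Γ₀| + C₁ + 1`, `λ = K₂ + 1`, `Γ(t) = Γ₁ e^(λt)`, `Γm = Γ₁ e^(λ|T₀|)`, `μ = K₂ (1 + (1+Γm)² Γm) + 1`, `o(t) = 2δ e^(μt)`, `δ₁ = ε₁/((1+Γm)² 2 e^(μ|T₀|))`.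
* `δ ≥ δ₁`: `|f t x v - f t y v| ≤ C₁ Wp q v ≤ (C₁/δ₁) δ Wp q v`.
* `δ < δ₁`: claim `f t x v - f t y w < Br q P (o t) (Γ t) v w` on `[0,T₁]`; otherwise `ftouchL` (`hbig`: `C₁ < Γ(t)`, `rt ≥ len ≥ 1`; `hini`: data hypothesis, `min 1 len ≤ len ≤ rt`, strict since `2δ > δ`). At the touching point `TL Cp q P (o t₀) (Γ t₀) (f t₀ y₀) (f t₀ x₀) v₀ w₀`, `op_L`.
 For `τ < 0`: `f (t₀+τ) (x₀+τv₀) v₀ - f (t₀+τ) (y₀+τw₀) w₀ < Br .. (o (t₀+τ)) (Γ (t₀+τ)) ≤ o(t₀+τ) W_q + Γ(t₀+τ) (rt (o t₀) (v₀-w₀) W_P)` (`rt_mono`, `o` increasing), equality at `τ = 0`: the derivative `landauQ G v₀ - landauQ F w₀ ≥ μ o W_q + λ Γ rt W_P > K₂ (Br + (1+Γ)² Γ o W_q)`: contradiction.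
* Conclusion at `w = v`: `f t x v - f t y v < o W_q + Γ o W_P ≤ (1+Γm) 2 e^(μ|T₀|) δ W_q`, and the same with `x, y` exchanged. `K = C₁/δ₁ + (1+Γm) 2 e^(μ|T₀|)`.
-/

set_option autoImplicit false

open MeasureTheory Set Filter Topology Pool.Agent.H25.Kin Pool.Agent.H48.PL Pool.Agent.H48.PD
open Pool.Agent.H82.BK Pool.Agent.H82.CM Pool.Agent.H48.PR

namespace Pool.Agent.H87.QL

variable {d : ℕ} {γ : ℝ}

/-- the left derivative of a nonnegative function vanishing at `0` -/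
private lemma finL_left {g : ℝ → ℝ} {q t₀ : ℝ} (ht : 0 < t₀) (hg : HasDerivAt g q 0)
    (h0 : g 0 = 0) (h : ∀ τ ∈ Ioo (-t₀) 0, 0 ≤ g τ) : q ≤ 0 := by
  have h1 := hg.tendsto_slope_zero_left
  refine le_of_tendsto h1 ?_
  filter_upwards [Ioo_mem_nhdsLT (show -t₀ < 0 by linarith)] with τ hτ
  have h2 := h τ hτ
  have h3 : τ < 0 := hτ.2
  rw [zero_add, smul_eq_mul, h0, sub_zero]
  exact mul_nonpos_of_nonpos_of_nonneg (inv_lt_zero.2 h3).le h2

theorem qh_L (hd : 2 ≤ d) (h1 : -2 < γ) (h2 : γ ≤ 0) : Pool.Agent.H37.LN.QHL d γ := by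
  intro Cl m N hm T₀ Γ₀
  obtain ⟨q, hq⟩ : ∃ q : ℕ, q = d + 12 := ⟨_, rfl⟩
  obtain ⟨P, hP⟩ : ∃ P : ℕ, P = d + 15 := ⟨_, rfl⟩
  rw [← hq, ← hP]
  have hqP : q ≤ P := by omega
  set Cp : ℕ → ℝ := fun N => |Cl N| with hCp
  have hCp0 : ∀ N, 0 ≤ Cp N := fun N => abs_nonneg _
  obtain ⟨ε₁, hε₁, K₂, hK₂0, hop⟩ := op_L (q := q) (P := P) hd h1 h2 (by omega) (by omega) Cp hm N
  obtain ⟨C₁, hC₁⟩ : ∃ C₁ : ℝ, C₁ = ((d : ℝ) + 1) ^ P * Cp (2 * P) := ⟨_, rfl⟩
  have hC₁0 : 0 ≤ C₁ := by rw [hC₁]; exact mul_nonneg (by positivity) (hCp0 _)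
  obtain ⟨Γ₁, hΓ₁⟩ : ∃ Γ₁ : ℝ, Γ₁ = |Γ₀| + C₁ + 1 := ⟨_, rfl⟩
  have hΓ₁1 : 1 ≤ Γ₁ := by rw [hΓ₁]; linarith [abs_nonneg Γ₀]
  have hΓ₁C : C₁ < Γ₁ := by rw [hΓ₁]; linarith [abs_nonneg Γ₀]
  have hΓ₁0 : |Γ₀| ≤ Γ₁ := by rw [hΓ₁]; linarith
  obtain ⟨l, hl⟩ : ∃ l : ℝ, l = K₂ + 1 := ⟨_, rfl⟩
  have hl0 : 0 ≤ l := by rw [hl]; linarith
  obtain ⟨E₀, hE₀⟩ : ∃ E₀ : ℝ, E₀ = Real.exp (l * |T₀|) := ⟨_, rfl⟩
  have hE₀1 : 1 ≤ E₀ := by rw [hE₀]; exact Real.one_le_exp (mul_nonneg hl0 (abs_nonneg _))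
  obtain ⟨Γm, hΓm⟩ : ∃ Γm : ℝ, Γm = Γ₁ * E₀ := ⟨_, rfl⟩
  have hΓm0 : 0 ≤ Γm := by rw [hΓm]; positivity
  obtain ⟨r, hr⟩ : ∃ r : ℝ, r = K₂ * (1 + (1 + Γm) ^ 2 * Γm) + 1 := ⟨_, rfl⟩
  have hr0 : 0 ≤ r := by rw [hr]; positivity
  obtain ⟨E₁, hE₁⟩ : ∃ E₁ : ℝ, E₁ = Real.exp (r * |T₀|) := ⟨_, rfl⟩
  have hE₁1 : 1 ≤ E₁ := by rw [hE₁]; exact Real.one_le_exp (mul_nonneg hr0 (abs_nonneg _))
  obtain ⟨δ₁, hδ₁⟩ : ∃ δ₁ : ℝ, δ₁ = ε₁ / ((1 + Γm) ^ 2 * (2 * E₁)) := ⟨_, rfl⟩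
  have hδ₁0 : 0 < δ₁ := by rw [hδ₁]; positivity
  refine ⟨C₁ / δ₁ + (1 + Γm) * (2 * E₁), by positivity, ?_⟩
  intro δ hδ T hT f hf hval hgood hdat
  have hδ0 : 0 < δ := hδ.1
  have hsol : IsClassicalSol T (fun t x => landauQ γ (f t x)) f := hf
  have hnn : ∀ t ∈ Ico 0 T, ∀ x v, 0 ≤ f t x v := hsol.nonneg
  have hvalC : ∀ N : ℕ, ∀ t ∈ Ico 0 T, ∀ x v, (1 + ‖v‖) ^ N * f t x v ≤ Cp N :=
    fun N t ht x v => (hval t ht N x v).trans (le_abs_self _)
  have hWle : ∀ (g : ℝ) (v : Vec d), 0 ≤ g → (1 + ‖v‖) ^ (2 * P) * g ≤ Cp (2 * P) →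
      g ≤ C₁ * Wp P v := by
    intro g v hg h
    have hn := norm_nonneg v
    have h3 : 1 + nsq v ≤ ((d : ℝ) + 1) * (1 + ‖v‖) ^ 2 := one_add_sq_le v
    have hqv := sq_nonneg' v
    have h5 : (1 + nsq v) ^ P ≤ ((d : ℝ) + 1) ^ P * (1 + ‖v‖) ^ (2 * P) := by
      rw [pow_mul, ← mul_pow]
      exact pow_le_pow_left₀ (by linarith) h3 P
    have h7 : g * (1 + nsq v) ^ P ≤ C₁ := by
      rw [hC₁]
      calc g * (1 + nsq v) ^ P
          ≤ g * (((d : ℝ) + 1) ^ P * (1 + ‖v‖) ^ (2 * P)) := mul_le_mul_of_nonneg_left h5 hg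
        _ = ((d : ℝ) + 1) ^ P * ((1 + ‖v‖) ^ (2 * P) * g) := by ring
        _ ≤ ((d : ℝ) + 1) ^ P * Cp (2 * P) := mul_le_mul_of_nonneg_left h (by positivity)
    have h8 : g = g * (1 + nsq v) ^ P * Wp P v := by
      rw [mul_assoc, mul_comm ((1 + nsq v) ^ P) (Wp P v), Wp_mul, mul_one]
    rw [h8]
    exact mul_le_mul_of_nonneg_right h7 (Wp_pos P v).le
  have hbd : ∀ t ∈ Ico 0 T, ∀ x v, f t x v ≤ C₁ * Wp P v := fun t ht x v =>
    hWle _ v (hnn t ht x v) (hvalC (2 * P) t ht x v)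
  -- it suffices to prove a one sided bound
  have main : ∀ t ∈ Ico 0 T, ∀ x y v : Vec d,
      f t x v - f t y v ≤ (C₁ / δ₁ + (1 + Γm) * (2 * E₁)) * δ * Wp q v := by
    intro t ht x y v
    have hW := Wp_pos q v
    have hW' := Wp_pos P v
    have hWW := Wp_anti hqP v
    rcases le_or_gt δ₁ δ with hcase | hcase
    · have h3 : f t x v - f t y v ≤ C₁ * Wp q v := by
        have a1 := hbd t ht x v
        have a2 := hnn t ht y v
        have a3 := mul_le_mul_of_nonneg_left hWW hC₁0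
        linarith
      refine h3.trans (mul_le_mul_of_nonneg_right ?_ hW.le)
      have h4 : C₁ ≤ C₁ / δ₁ * δ := by
        rw [div_mul_eq_mul_div, le_div_iff₀ hδ₁0]
        exact mul_le_mul_of_nonneg_left hcase hC₁0
      have h5 : 0 ≤ (1 + Γm) * (2 * E₁) * δ := by positivity
      nlinarith
    · obtain ⟨T₁, hT₁⟩ : ∃ T₁ : ℝ, T₁ = (t + T) / 2 := ⟨_, rfl⟩
      have hT₁T : T₁ < T := by rw [hT₁]; linarith [ht.2]
      have htT₁ : t ≤ T₁ := by rw [hT₁]; linarith [ht.2]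
      have hT₁0 : 0 ≤ T₁ := ht.1.trans htT₁
      have hTabs : T₁ ≤ |T₀| := hT₁T.le.trans (hT.trans (le_abs_self _))
      have hsub : ∀ {τ : ℝ}, τ ∈ Icc 0 T₁ → τ ∈ Ico 0 T := fun h => ⟨h.1, h.2.trans_lt hT₁T⟩
      set D : ℝ → ℝ := fun τ => 2 * δ * Real.exp (r * τ) with hD
      set Gm : ℝ → ℝ := fun τ => Γ₁ * Real.exp (l * τ) with hGm
      have hDpos : ∀ τ, 0 < D τ := fun τ => by simp only [hD]; positivity
      have hΓ₁p : 0 < Γ₁ := by linarith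
      have hGpos : ∀ τ, 0 < Gm τ := fun τ => by simp only [hGm]; positivity
      have hDc : Continuous D := by simp only [hD]; fun_prop
      have hGc : Continuous Gm := by simp only [hGm]; fun_prop
      have hG1 : ∀ τ, 0 ≤ τ → Γ₁ ≤ Gm τ := fun τ hτ => by
        simp only [hGm]
        have := Real.one_le_exp (mul_nonneg hl0 hτ)
        nlinarith
      have hGle : ∀ τ ∈ Icc 0 T₁, Gm τ ≤ Γm := fun τ hτ => by
        simp only [hGm]
        rw [hΓm, hE₀]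
        refine mul_le_mul_of_nonneg_left (Real.exp_le_exp.2 ?_) hΓ₁p.le
        exact mul_le_mul_of_nonneg_left (hτ.2.trans hTabs) hl0
      have hD0 : ∀ τ, 0 ≤ τ → 2 * δ ≤ D τ := fun τ hτ => by
        simp only [hD]
        have := Real.one_le_exp (mul_nonneg hr0 hτ)
        nlinarith
      have hDle : ∀ τ ∈ Icc 0 T₁, D τ ≤ 2 * δ * E₁ := fun τ hτ => by
        simp only [hD]
        rw [hE₁]
        refine mul_le_mul_of_nonneg_left (Real.exp_le_exp.2 ?_) (by positivity)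
        exact mul_le_mul_of_nonneg_left (hτ.2.trans hTabs) hr0
      have hDmono : ∀ τ τ', τ ≤ τ' → D τ ≤ D τ' := fun τ τ' h => by
        simp only [hD]
        refine mul_le_mul_of_nonneg_left (Real.exp_le_exp.2 ?_) (by positivity)
        exact mul_le_mul_of_nonneg_left h hr0
      have hδE : (1 + Γm) ^ 2 * (2 * δ * E₁) ≤ ε₁ := by
        have h3 : δ ≤ ε₁ / ((1 + Γm) ^ 2 * (2 * E₁)) := by rw [← hδ₁]; exact hcase.le
        rw [le_div_iff₀ (by positivity)] at h3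
        linarith
      have claim : ∀ τ ∈ Icc 0 T₁, ∀ x y v w : Vec d,
          f τ x v - f τ y w < Br q P (D τ) (Gm τ) v w := by
        by_contra hcon
        push Not at hcon
        have hbig : ∀ τ ∈ Icc 0 T₁, ∀ x y v w : Vec d, 1 ≤ len (v - w) →
            f τ x v - f τ y w < Br q P (D τ) (Gm τ) v w := by
          intro τ hτ x y v w hvw
          have h3 := hbd τ (hsub hτ) x v
          have h4 := hnn τ (hsub hτ) y w
          have h5 : C₁ < Gm τ := by linarith [hG1 τ hτ.1]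
          have h6 : Wp P v ≤ rt (D τ) (v - w) * Wp P v := by
            have h7 : 1 ≤ rt (D τ) (v - w) := hvw.trans (len_le_rt _ _)
            have := Wp_pos P v
            nlinarith
          have h7 : C₁ * Wp P v < Gm τ * Wp P v := mul_lt_mul_of_pos_right h5 (Wp_pos P v)
          have h8 : Gm τ * Wp P v ≤ Gm τ * (rt (D τ) (v - w) * Wp P v) :=
            mul_le_mul_of_nonneg_left h6 (hGpos τ).le
          have h9 := mul_pos (hDpos τ) (Wp_pos q v)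
          unfold Br
          linarith
        have hini : ∀ x y v w : Vec d, f 0 x v - f 0 y w < Br q P (D 0) (Gm 0) v w := by
          intro x y v w
          refine (hdat x y v w).trans_lt ?_
          unfold Br
          have h3 := hD0 0 le_rfl
          have h4 := hG1 0 le_rfl
          have h5 : 0 ≤ min 1 (len (v - w)) := le_min zero_le_one (len_nonneg _)
          have h6 : min 1 (len (v - w)) ≤ rt (D 0) (v - w) :=
            (min_le_right _ _).trans (len_le_rt _ _)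
          have h7 : Γ₀ * min 1 (len (v - w)) ≤ Gm 0 * rt (D 0) (v - w) :=
            (mul_le_mul_of_nonneg_right (by linarith [le_abs_self Γ₀]) h5).trans
              (mul_le_mul_of_nonneg_left h6 (hGpos 0).le)
          have h8 := mul_le_mul_of_nonneg_right h7 (Wp_pos P v).le
          have h9 : δ * Wp q v < D 0 * Wp q v :=
            mul_lt_mul_of_pos_right (by linarith) (Wp_pos q v)
          linarith
        obtain ⟨t₀, ht₀, x₀, y₀, v₀, w₀, hvw, heq, hlt, hle⟩ :=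
          ftouchL hsol hT₁0 hT₁T q P hDc hGc hDpos hGpos hbig hini hcon
        have ht₀c : t₀ ∈ Icc 0 T₁ := ⟨ht₀.1.le, ht₀.2⟩
        have ht₀T : t₀ ∈ Ioo 0 T := ⟨ht₀.1, ht₀.2.trans_lt hT₁T⟩
        have ht₀I : t₀ ∈ Ico 0 T := hsub ht₀c
        have hFB : ∀ x, FB Cp (f t₀ x) := fun x =>
          ⟨hsol.nice ht₀T x, hnn t₀ ht₀I x, fun N v => hvalC N t₀ ht₀I x v⟩
        have hDt := hDle t₀ ht₀c
        have hGt := hGle t₀ ht₀c
        have hGt1 : 1 ≤ Gm t₀ := hΓ₁1.trans (hG1 t₀ ht₀.1.le)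
        have htl : TL Cp q P (D t₀) (Gm t₀) (f t₀ y₀) (f t₀ x₀) v₀ w₀ :=
          ⟨hFB y₀, hFB x₀, hDpos t₀, hGt1, hvw.le, hle x₀ y₀, hle y₀ x₀, heq⟩
        have hsm : (1 + Gm t₀) ^ 2 * D t₀ ≤ ε₁ := by
          have h3 : (1 + Gm t₀) ^ 2 ≤ (1 + Γm) ^ 2 :=
            pow_le_pow_left₀ (by linarith) (by linarith) 2
          exact (mul_le_mul h3 hDt (hDpos t₀).le (by positivity)).trans hδE
        have hqq := hop _ _ _ _ _ _ htl (hgood t₀ ht₀I y₀) hsm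
        have hWv := Wp_pos q v₀
        have hWv' := Wp_pos P v₀
        have hrt := rt_pos (hDpos t₀) (v₀ - w₀)
        -- the derivative along the two characteristics
        have d1 := (char_deriv hsol ht₀T x₀ v₀).sub (char_deriv hsol ht₀T y₀ w₀)
        have e1 : HasDerivAt (fun τ : ℝ => D (t₀ + τ)) (r * D t₀) 0 := by
          have h3 : HasDerivAt (fun τ : ℝ => r * (t₀ + τ)) r 0 := by
            have h4 := ((hasDerivAt_id (0 : ℝ)).const_add t₀).const_mul r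
            rwa [mul_one] at h4
          have h5 := (h3.exp).const_mul (2 * δ)
          simp only [add_zero] at h5
          have e : r * D t₀ = 2 * δ * (Real.exp (r * t₀) * r) := by simp only [hD]; ring
          rw [e]
          exact h5
        have e2 : HasDerivAt (fun τ : ℝ => Gm (t₀ + τ)) (l * Gm t₀) 0 := by
          have h3 : HasDerivAt (fun τ : ℝ => l * (t₀ + τ)) l 0 := by
            have h4 := ((hasDerivAt_id (0 : ℝ)).const_add t₀).const_mul l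
            rwa [mul_one] at h4
          have h5 := (h3.exp).const_mul Γ₁
          simp only [add_zero] at h5
          have e : l * Gm t₀ = Γ₁ * (Real.exp (l * t₀) * l) := by simp only [hGm]; ring
          rw [e]
          exact h5
        have d2 : HasDerivAt (fun τ : ℝ => D (t₀ + τ) * Wp q v₀ +
            Gm (t₀ + τ) * (rt (D t₀) (v₀ - w₀) * Wp P v₀))
            (r * D t₀ * Wp q v₀ + l * Gm t₀ * (rt (D t₀) (v₀ - w₀) * Wp P v₀)) 0 :=
          (e1.mul_const (Wp q v₀)).add (e2.mul_const (rt (D t₀) (v₀ - w₀) * Wp P v₀))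
        have d3 := d2.sub d1
        have hneg := finL_left ht₀.1 d3 (by
          simp only [Pi.sub_apply, add_zero, zero_smul]
          have h3 := heq
          unfold Br at h3
          linarith) (by
          intro τ hτ
          have h3 := hlt (t₀ + τ) ⟨by linarith [hτ.1], by linarith [hτ.2]⟩
            (x₀ + τ • v₀) (y₀ + τ • w₀) v₀ w₀
          have h4 : rt (D (t₀ + τ)) (v₀ - w₀) ≤ rt (D t₀) (v₀ - w₀) :=
            rt_mono (hDpos _).le (hDmono _ _ (by linarith [hτ.2])) _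
          have h5 : Gm (t₀ + τ) * (rt (D (t₀ + τ)) (v₀ - w₀) * Wp P v₀) ≤
              Gm (t₀ + τ) * (rt (D t₀) (v₀ - w₀) * Wp P v₀) :=
            mul_le_mul_of_nonneg_left (mul_le_mul_of_nonneg_right h4 hWv'.le) (hGpos _).le
          unfold Br at h3
          simp only [Pi.sub_apply]
          linarith)
        -- the contradiction
        have g1 : K₂ * (1 + (1 + Gm t₀) ^ 2 * Gm t₀) ≤ K₂ * (1 + (1 + Γm) ^ 2 * Γm) := by
          have h3 : (1 + Gm t₀) ^ 2 ≤ (1 + Γm) ^ 2 :=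
            pow_le_pow_left₀ (by linarith) (by linarith) 2
          have h4 : (1 + Gm t₀) ^ 2 * Gm t₀ ≤ (1 + Γm) ^ 2 * Γm :=
            mul_le_mul h3 hGt (hGpos t₀).le (by positivity)
          exact mul_le_mul_of_nonneg_left (by linarith) hK₂0
        have g2 : K₂ * (1 + (1 + Gm t₀) ^ 2 * Gm t₀) * (D t₀ * Wp q v₀) <
            r * (D t₀ * Wp q v₀) := by
          refine mul_lt_mul_of_pos_right ?_ (mul_pos (hDpos t₀) hWv)
          rw [hr]
          linarith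
        have g3 : K₂ * (Gm t₀ * (rt (D t₀) (v₀ - w₀) * Wp P v₀)) ≤
            l * (Gm t₀ * (rt (D t₀) (v₀ - w₀) * Wp P v₀)) := by
          refine mul_le_mul_of_nonneg_right ?_
            (mul_nonneg (hGpos t₀).le (mul_nonneg hrt.le hWv'.le))
          rw [hl]
          linarith
        have g4 : Br q P (D t₀) (Gm t₀) v₀ w₀ = D t₀ * Wp q v₀ +
            Gm t₀ * (rt (D t₀) (v₀ - w₀) * Wp P v₀) := rfl
        rw [g4] at hqq
        nlinarith
      have h3 := claim t ⟨ht.1, htT₁⟩ x y v v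
      refine h3.le.trans ?_
      unfold Br
      rw [sub_self, rt_zero (hDpos t).le]
      have hDt := hDle t ⟨ht.1, htT₁⟩
      have hGt := hGle t ⟨ht.1, htT₁⟩
      have h4 : Gm t * (D t * Wp P v) ≤ Γm * (D t * Wp q v) :=
        mul_le_mul hGt (mul_le_mul_of_nonneg_left hWW (hDpos t).le)
          (mul_nonneg (hDpos t).le hW'.le) hΓm0
      have h5 : (1 + Γm) * (D t * Wp q v) ≤ (1 + Γm) * (2 * δ * E₁ * Wp q v) :=
        mul_le_mul_of_nonneg_left (mul_le_mul_of_nonneg_right hDt hW.le) (by linarith)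
      have h6 : 0 ≤ C₁ / δ₁ * δ * Wp q v := by positivity
      nlinarith
  intro t ht x y v
  have h3 := main t ht x y v
  have h4 := main t ht y x v
  rw [abs_le]
  constructor <;> linarith

end Pool.Agent.H87.QL
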