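import Pool.Agent.H87.QL.Defs

/-!
# Module BrD: the second derivative of the barrier along a line

`η = v - w`, `ξ = p - g`, `r = rt o η`. `Br q P o Γ (v+εp) (w+εg) = o W_q(v+εp) + Γ (R(ε) W_P(v+εp))`, `R(ε) = √(nsq (η+εξ) + o²)` (`(v+εp)-(w+εg) = η+εξ`).
* `W_p` along the line: `line1`, `line2` (H15/KM/Tst) with `wp_smooth` (H48/LN/HsW): first derivative `∑ j, p j * pd j (Wp p') (v+ε•p)`, second derivative at `0`: `qf (D²W) p`.
* `R(ε) = √(nsq η + 2ε η·ξ + ε² nsq ξ + o²)`, `R' = (η·ξ + ε nsq ξ)/R`, `R''(0) = nsq ξ/r - (η·ξ)²/r³ ≤ nsq ξ/r`, `|R'(0)| ≤ |η·ξ|/r ≤ len ξ` (Cauchy Schwarz, `len_le_rt`).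
* `B1 = o W_q' + Γ (R' W_P + R W_P')`, `B2 = o qf(D²W_q) p + Γ (R'' W_P + 2 R' W_P' + r qf(D²W_P) p)` at `0`.
* `pd j (Wp P) v = -2P v_j Wp (P+1) v` (one line of calculus, or as in the proof of `wp_pd`), so `|W_P'(0)| = 2P |v·p| W_(P+1)(v) ≤ 2P len v len p W_P(v)/(1+nsq v) ≤ 2P len p W_P(v)/√(1+nsq v)`.
* `2 |R'| |W_P'| ≤ W_P (2 a c)`, `a = len ξ`, `c = 2P len p/√(1+nsq v)`, `2ac ≤ a²/r + r c²`: `≤ W_P nsq ξ/r + r W_P 4P² nsq p/(1+nsq v)`.
* `|qf(D²W_p') p| ≤ ∑∑ |..||p_i||p_j| ≤ d * 8(p'+1)² * W_p'(v)/(1+nsq v) * nsq p` (`wp_pd_le`, `(∑|p_i|)² ≤ d nsq p`).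
Sum: `B2 ≤ 2 Γ W_P nsq ξ/r + K (o W_q + Γ r W_P)/(1+nsq v) nsq p`, `K = 8d(q+1)² + 8d(P+1)² + 4P²`.
-/

set_option autoImplicit false

open MeasureTheory Set Filter Topology Pool.Agent.H25.Kin Pool.Agent.H48.PR Pool.Agent.H48.LN
open Pool.Agent.H48.PD (FB)
open Pool.Agent.H15.KM (qf trp line1 line2)

namespace Pool.Agent.H87.QL

variable {d : ℕ}

/-- the scalar product -/
private noncomputable def BrD_dt (v p : Vec d) : ℝ := ∑ i, v i * p i

private lemma BrD_nsq_line (v p : Vec d) (ε : ℝ) :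
    nsq (v + ε • p) = nsq v + 2 * BrD_dt v p * ε + nsq p * ε ^ 2 := by
  unfold nsq BrD_dt
  simp only [Pi.add_apply, Pi.smul_apply, smul_eq_mul]
  rw [Finset.mul_sum, Finset.sum_mul, Finset.sum_mul, ← Finset.sum_add_distrib,
    ← Finset.sum_add_distrib]
  exact Finset.sum_congr rfl fun i _ => by ring

private lemma BrD_cs (v p : Vec d) : BrD_dt v p ^ 2 ≤ nsq v * nsq p := by
  unfold nsq BrD_dt
  exact Finset.sum_mul_sq_le_sq_mul_sq _ _ _

private lemma BrD_line (P : ℕ) (v p : Vec d) :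
    HasDerivAt (fun ε : ℝ => Wp P (v + ε • p))
      (-(2 * P * BrD_dt v p) * (Wp P v / (1 + nsq v))) 0 := by
  have hnv := sq_nonneg' v
  have h0 : HasDerivAt (fun ε : ℝ => 1 + (nsq v + 2 * BrD_dt v p * ε + nsq p * ε ^ 2))
      (2 * BrD_dt v p) 0 := by
    have h1 := ((((hasDerivAt_id' (0 : ℝ)).const_mul (2 * BrD_dt v p)).const_add (nsq v)).add
      ((hasDerivAt_pow 2 (0 : ℝ)).const_mul (nsq p))).const_add 1
    refine h1.congr_deriv ?_
    simp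
  have h1 := h0.fun_pow P
  have hne : (1 + (nsq v + 2 * BrD_dt v p * 0 + nsq p * 0 ^ 2)) ≠ 0 := by
    have : (1 + (nsq v + 2 * BrD_dt v p * 0 + nsq p * 0 ^ 2)) = 1 + nsq v := by ring
    rw [this]
    linarith
  have h2 := h1.fun_inv (pow_ne_zero P hne)
  have he : (fun ε : ℝ => Wp P (v + ε • p)) =
      fun ε : ℝ => ((1 + (nsq v + 2 * BrD_dt v p * ε + nsq p * ε ^ 2)) ^ P)⁻¹ := by
    funext ε
    unfold Wp
    rw [BrD_nsq_line]
  rw [he]
  refine h2.congr_deriv ?_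
  have e0 : (1 + (nsq v + 2 * BrD_dt v p * 0 + nsq p * 0 ^ 2)) = 1 + nsq v := by ring
  rw [e0]
  unfold Wp
  have hh : (1 + nsq v) ≠ 0 := by linarith
  rcases P with _ | k
  · simp
  · simp only [Nat.add_sub_cancel]
    field_simp
    ring

private lemma BrD_qf (k : ℕ) (v p : Vec d) :
    Pool.Agent.H15.KM.qf (fun i j => pd i (pd j (Wp k)) v) p ≤
      8 * d * (k + 1) ^ 2 * (Wp k v / (1 + nsq v)) * nsq p := by
  have hnv := sq_nonneg' v
  have hh : 0 < 1 + nsq v := by linarith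
  have hWd : 0 ≤ Wp k v / (1 + nsq v) := (div_pos (Wp_pos k v) hh).le
  set M : ℝ := 8 * (k + 1) ^ 2 * (Wp k v / (1 + nsq v)) with hM
  have hM0 : 0 ≤ M := by positivity
  have h1 : Pool.Agent.H15.KM.qf (fun i j => pd i (pd j (Wp k)) v) p ≤ ∑ i, ∑ j, M * (|p i| * |p j|) := by
    unfold Pool.Agent.H15.KM.qf
    refine Finset.sum_le_sum fun i _ => Finset.sum_le_sum fun j _ => ?_
    calc pd i (pd j (Wp k)) v * p i * p j ≤ |pd i (pd j (Wp k)) v * p i * p j| := le_abs_self _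
      _ = |pd i (pd j (Wp k)) v| * (|p i| * |p j|) := by rw [abs_mul, abs_mul, mul_assoc]
      _ ≤ M * (|p i| * |p j|) := mul_le_mul_of_nonneg_right (wp_pd_le k i j v) (by positivity)
  have h2 : ∑ i, ∑ j, M * (|p i| * |p j|) = M * (∑ i, |p i|) ^ 2 := by
    rw [sq, Finset.sum_mul_sum, Finset.mul_sum]
    exact Finset.sum_congr rfl fun i _ => by rw [Finset.mul_sum]
  have h3 : (∑ i, |p i|) ^ 2 ≤ d * nsq p := by
    have := sq_sum_le_card_mul_sum_sq (s := (Finset.univ : Finset (Fin d))) (f := fun i => |p i|)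
    simp only [Finset.card_univ, Fintype.card_fin, sq_abs] at this
    exact this
  calc Pool.Agent.H15.KM.qf (fun i j => pd i (pd j (Wp k)) v) p ≤ M * (∑ i, |p i|) ^ 2 := h1.trans h2.le
    _ ≤ M * (d * nsq p) := mul_le_mul_of_nonneg_left h3 hM0
    _ = 8 * d * (k + 1) ^ 2 * (Wp k v / (1 + nsq v)) * nsq p := by rw [hM]; ring

theorem br_d2 (q P : ℕ) : ∃ K : ℝ, 0 ≤ K ∧ ∀ (o Γ : ℝ), 0 < o → 0 ≤ Γ → ∀ v w p g : Vec d,
    ∃ (B1 : ℝ → ℝ) (B2 : ℝ),
      (∀ ε : ℝ, HasDerivAt (fun ε : ℝ => Br q P o Γ (v + ε • p) (w + ε • g)) (B1 ε) ε) ∧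
      HasDerivAt B1 B2 0 ∧
      B2 ≤ 2 * Γ * Wp P v / rt o (v - w) * nsq (p - g) +
        K * (Br q P o Γ v w / (1 + nsq v)) * nsq p := by
  refine ⟨8 * d * (q + 1) ^ 2 + 8 * d * (P + 1) ^ 2 + 4 * P ^ 2, by positivity, ?_⟩
  intro o Γ ho hΓ v w p g
  set η : Vec d := v - w with hη
  set ξ : Vec d := p - g with hξ
  set b0 : ℝ := BrD_dt η ξ with hb0
  set c0 : ℝ := nsq ξ with hc0
  set ψ : ℝ → ℝ := fun ε => nsq η + o ^ 2 + 2 * b0 * ε + c0 * ε ^ 2 with hψ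
  have hlin : ∀ ε : ℝ, (v + ε • p) - (w + ε • g) = η + ε • ξ := by
    intro ε
    rw [hη, hξ, smul_sub]
    abel
  have hψeq : ∀ ε : ℝ, nsq (η + ε • ξ) + o ^ 2 = ψ ε := by
    intro ε
    rw [BrD_nsq_line, hψ]
    ring
  have hψpos : ∀ ε : ℝ, 0 < ψ ε := by
    intro ε
    rw [← hψeq]
    have := sq_nonneg' (η + ε • ξ)
    positivity
  set r : ℝ := rt o η with hr
  have hrpos : 0 < r := rt_pos ho η
  have hr2 : r ^ 2 = nsq η + o ^ 2 := rt_sq o η
  have hψ0 : ψ 0 = r ^ 2 := by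
    rw [hr2, hψ]
    ring
  have hsq0 : √(ψ 0) = r := by
    rw [hψ0, Real.sqrt_sq hrpos.le]
  set R1 : ℝ → ℝ := fun ε => (b0 + c0 * ε) / √(ψ ε) with hR1
  set D : ℕ → ℝ → ℝ := fun k ε => ∑ j, p j * pd j (Wp k) (v + ε • p) with hD
  have hψd : ∀ ε : ℝ, HasDerivAt ψ (2 * b0 + 2 * c0 * ε) ε := by
    intro ε
    have h1 := (((hasDerivAt_id' ε).const_mul (2 * b0)).const_add (nsq η + o ^ 2)).add
      ((hasDerivAt_pow 2 ε).const_mul c0)
    refine (h1.congr_deriv ?_)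
    simp
    ring
  have hRd : ∀ ε : ℝ, HasDerivAt (fun ε => √(ψ ε)) (R1 ε) ε := by
    intro ε
    refine ((hψd ε).sqrt (hψpos ε).ne').congr_deriv ?_
    rw [hR1]
    have h1 : √(ψ ε) ≠ 0 := (Real.sqrt_pos.2 (hψpos ε)).ne'
    field_simp
  have hFd : ∀ (k : ℕ) (ε : ℝ), HasDerivAt (fun ε : ℝ => Wp k (v + ε • p)) (D k ε) ε :=
    fun k ε => line1 (wp_smooth k) v p ε
  have hF2 : ∀ k : ℕ, HasDerivAt (D k) (Pool.Agent.H15.KM.qf (fun i j => pd i (pd j (Wp k)) v) p) 0 :=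
    fun k => line2 (wp_smooth k) v p
  have hBr : (fun ε : ℝ => Br q P o Γ (v + ε • p) (w + ε • g)) =
      fun ε : ℝ => o * Wp q (v + ε • p) + Γ * (√(ψ ε) * Wp P (v + ε • p)) := by
    funext ε
    unfold Br rt
    rw [hlin, hψeq]
  set B1 : ℝ → ℝ := fun ε => o * D q ε + Γ * (R1 ε * Wp P (v + ε • p) + √(ψ ε) * D P ε) with hB1
  have hR2 : HasDerivAt R1 (c0 / r - b0 ^ 2 / r ^ 3) 0 := by
    have h1 : HasDerivAt (fun ε : ℝ => b0 + c0 * ε) c0 0 := by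
      simpa using ((hasDerivAt_id' (0 : ℝ)).const_mul c0).const_add b0
    have h2 := h1.fun_div (hRd 0) (by rw [hsq0]; exact hrpos.ne')
    refine h2.congr_deriv ?_
    rw [hR1]
    simp only [mul_zero, add_zero]
    rw [hsq0]
    field_simp
  have hv0 : v + (0 : ℝ) • p = v := by rw [zero_smul, add_zero]
  have hR10 : R1 0 = b0 / r := by
    rw [hR1]
    simp only [mul_zero, add_zero]
    rw [hsq0]
  set QF1 : ℝ := Pool.Agent.H15.KM.qf (fun i j => pd i (pd j (Wp q)) v) p with hQF1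
  set QF2 : ℝ := Pool.Agent.H15.KM.qf (fun i j => pd i (pd j (Wp P)) v) p with hQF2
  refine ⟨B1, o * QF1 + Γ * (((c0 / r - b0 ^ 2 / r ^ 3) * Wp P v + b0 / r * D P 0) +
    (b0 / r * D P 0 + r * QF2)), ?_, ?_, ?_⟩
  · intro ε
    rw [hBr]
    exact ((hFd q ε).const_mul o).add (((hRd ε).fun_mul (hFd P ε)).const_mul Γ)
  · have h1 := ((hF2 q).const_mul o).add
      (((hR2.fun_mul (hFd P 0)).add ((hRd 0).fun_mul (hF2 P))).const_mul Γ)
    refine (h1.congr_deriv ?_)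
    rw [hv0, hR10, hsq0]
  · have hnv := sq_nonneg' v
    have hnp := sq_nonneg' p
    have hh : 0 < 1 + nsq v := by linarith
    have hW := Wp_pos P v
    have hWq := Wp_pos q v
    have hWd : 0 ≤ Wp P v / (1 + nsq v) := (div_pos hW hh).le
    have hD0 : D P 0 = -(2 * P * BrD_dt v p) * (Wp P v / (1 + nsq v)) := by
      have h1 := hFd P 0
      have h2 := BrD_line P v p
      rw [h1.unique h2]
    have hq1 := BrD_qf q v p
    have hP1 := BrD_qf P v p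
    rw [← hQF1] at hq1
    rw [← hQF2] at hP1
    -- the mixed term
    set X : ℝ := b0 / r with hX
    set Z : ℝ := 2 * P * BrD_dt v p / (1 + nsq v) with hZ
    have hX2 : X ^ 2 ≤ c0 := by
      rw [hX, div_pow, div_le_iff₀ (by positivity), hr2]
      have h1 := BrD_cs η ξ
      have h2 : 0 ≤ c0 * o ^ 2 := mul_nonneg (sq_nonneg' ξ) (sq_nonneg o)
      have h3 : c0 * (nsq η + o ^ 2) = nsq η * c0 + c0 * o ^ 2 := by ring
      rw [h3]
      linarith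
    have hZ2 : Z ^ 2 ≤ 4 * P ^ 2 * (nsq p / (1 + nsq v)) := by
      have h1 := BrD_cs v p
      have h2 : Z ^ 2 = 4 * P ^ 2 * (BrD_dt v p ^ 2 / (1 + nsq v) ^ 2) := by
        rw [hZ]
        field_simp
        ring
      rw [h2]
      refine mul_le_mul_of_nonneg_left ?_ (by positivity)
      rw [div_le_div_iff₀ (by positivity) hh]
      have h3 : BrD_dt v p ^ 2 ≤ (1 + nsq v) * nsq p := by nlinarith
      calc BrD_dt v p ^ 2 * (1 + nsq v) ≤ ((1 + nsq v) * nsq p) * (1 + nsq v) :=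
            mul_le_mul_of_nonneg_right h3 hh.le
        _ = nsq p * (1 + nsq v) ^ 2 := by ring
    have hmix : -(2 * (X * Z)) ≤ c0 / r + r * (4 * P ^ 2 * (nsq p / (1 + nsq v))) := by
      have h1 : -(2 * (X * Z)) ≤ X ^ 2 / r + r * Z ^ 2 := by
        have h2 : 0 ≤ (X + r * Z) ^ 2 / r := by positivity
        have h3 : (X + r * Z) ^ 2 / r = X ^ 2 / r + r * Z ^ 2 + 2 * (X * Z) := by
          field_simp
          ring
        linarith
      have h4 : X ^ 2 / r ≤ c0 / r := div_le_div_of_nonneg_right hX2 hrpos.le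
      have h5 := mul_le_mul_of_nonneg_left hZ2 hrpos.le
      linarith
    have hXD : X * D P 0 = -(X * Z) * Wp P v := by
      rw [hD0, hZ]
      field_simp
    have hsec : (c0 / r - b0 ^ 2 / r ^ 3) * Wp P v ≤ c0 / r * Wp P v := by
      refine mul_le_mul_of_nonneg_right ?_ hW.le
      have : 0 ≤ b0 ^ 2 / r ^ 3 := by positivity
      linarith
    have hmixW := mul_le_mul_of_nonneg_right hmix hW.le
    have hrQ := mul_le_mul_of_nonneg_left hP1 hrpos.le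
    have hin : ((c0 / r - b0 ^ 2 / r ^ 3) * Wp P v + X * D P 0) + (X * D P 0 + r * QF2) ≤
        2 * (c0 / r) * Wp P v + (4 * P ^ 2 + 8 * d * (P + 1) ^ 2) *
          (r * Wp P v * (nsq p / (1 + nsq v))) := by
      have e1 : r * (8 * d * (P + 1) ^ 2 * (Wp P v / (1 + nsq v)) * nsq p) =
          8 * d * (P + 1) ^ 2 * (r * Wp P v * (nsq p / (1 + nsq v))) := by
        field_simp
      have e2 : (c0 / r + r * (4 * P ^ 2 * (nsq p / (1 + nsq v)))) * Wp P v =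
          c0 / r * Wp P v + 4 * P ^ 2 * (r * Wp P v * (nsq p / (1 + nsq v))) := by
        ring
      rw [e1] at hrQ
      rw [e2] at hmixW
      rw [hXD]
      linarith
    have hinΓ := mul_le_mul_of_nonneg_left hin hΓ
    have hoq := mul_le_mul_of_nonneg_left hq1 ho.le
    have hA : 0 ≤ o * Wp q v * (nsq p / (1 + nsq v)) := by positivity
    have hB : 0 ≤ Γ * (r * Wp P v) * (nsq p / (1 + nsq v)) := by positivity
    have hfin : 2 * Γ * Wp P v / r * c0 +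
        (8 * d * (q + 1) ^ 2 + 8 * d * (P + 1) ^ 2 + 4 * P ^ 2) *
          (Br q P o Γ v w / (1 + nsq v)) * nsq p =
        2 * Γ * (c0 / r) * Wp P v + (8 * d * (q + 1) ^ 2 + 8 * d * (P + 1) ^ 2 + 4 * P ^ 2) *
          (o * Wp q v * (nsq p / (1 + nsq v)) + Γ * (r * Wp P v) * (nsq p / (1 + nsq v))) := by
      unfold Br
      rw [← hη, ← hr]
      field_simp
    rw [hfin]
    have e3 : o * (8 * d * (q + 1) ^ 2 * (Wp q v / (1 + nsq v)) * nsq p) =
        8 * d * (q + 1) ^ 2 * (o * Wp q v * (nsq p / (1 + nsq v))) := by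
      field_simp
    have e4 : Γ * (2 * (c0 / r) * Wp P v + (4 * P ^ 2 + 8 * d * (P + 1) ^ 2) *
          (r * Wp P v * (nsq p / (1 + nsq v)))) =
        2 * Γ * (c0 / r) * Wp P v + (4 * P ^ 2 + 8 * d * (P + 1) ^ 2) *
          (Γ * (r * Wp P v) * (nsq p / (1 + nsq v))) := by
      ring
    rw [e3] at hoq
    rw [e4] at hinΓ
    have hk1 : 0 ≤ (8 * (d : ℝ) * (P + 1) ^ 2 + 4 * P ^ 2) *
        (o * Wp q v * (nsq p / (1 + nsq v))) := mul_nonneg (by positivity) hA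
    have hk2 : 0 ≤ (8 * (d : ℝ) * (q + 1) ^ 2) *
        (Γ * (r * Wp P v) * (nsq p / (1 + nsq v))) := mul_nonneg (by positivity) hB
    linarith

end Pool.Agent.H87.QL
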