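import Pool.Agent.H37.LN.Defs
import Pool.Agent.H48.LN.HsW
import Pool.Agent.H15.KM.Tst
import Pool.Agent.H82.BK.Touch

/-!
# Quasi Lipschitz propagation for the Landau equation (MP_c15324_an, Q2): definitions

THEOREM (`Fin.lean`): `QHL d γ` (H37/LN/Defs) for `-2 < γ ≤ 0`, `2 ≤ d`: small oscillation in `x` stays small (linearly) on every bounded time interval, for ANY classical solution with decay constants and fibers in `Good m N`.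

PROOF. `q = d+12`, `P = d+15`. Barrier `Br q P o Γ v w = o W_q(v) + Γ rt o (v-w) W_P(v)`, `rt o η = √(|η|²+o²)`, `W_p = Wp p`, `o(t) = 2δ e^(μt)`, `Γ(t) = Γ₁ e^(λt)`, no `x`: transport is free. At the first touching point (module Cpt) `G = f(t₀,x₀,·)`,
`F = f(t₀,y₀,·)` satisfy `TL` (below): `G(v') - F(w') ≤ Br v' w'`, `F(v') - G(w') ≤ Br v' w'` for all `v', w'`, `G(v) - F(w) = Br v w`, `|v-w| ≤ 1`. Put `κ = (1+Γ) o`: `|G - F| ≤ κ W_q` (`TL.dif`). With `X = D²G(v)`, `Y = D²F(w)`, `b = 2 Γ W_P(v)/rt`: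
* SECOND ORDER TEST (modules BrD, Snd): `X(p,p) - Y(g,g) ≤ b |p-g|² + E |p|²`, `E = K Br/(1+|v|²)`; the `E` part costs `E tr A_G(v) ≤ K Br`;
* INTERMEDIATE MATRIX (module Mid): `Z` with `X'(p,p) - Z(g,g) ≤ 2b|p-g|²`, `Z(g,g) - Y(q,q) ≤ 2b|g-q|²` (`X' = X - E`);
* SYNCHRONOUS COUPLING (modules SynP, SynI): `tr A_G(v)X' - tr A_G(w)Z ≤ K b |v-w|² ≤ K Γ rt W_P(v)`, since `a(z) = s(z)²`, `|s(z)-s(z')|² ≤ (d+1)|z-z'|²(|z|^γ+|z'|^γ)`;
* MISMATCH (modules Mis, Sml): `tr A_G(w)Z - tr A_F(w)Y ≤ K κ² (1+|w|²)³ b ≤ K (1+Γ)² Γ o W_q(v)` (ellipticity `c (1+|w|²)^(γ/2)` of `A_F(w)`, `|A_G-A_F| ≤ K κ (1+|w|²)`, `rt ≥ o`, `P ≥ q+3`) if `(1+Γ)² o` is small;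
* ZERO ORDER (module Zer): `cb[G](v) G(v) - cb[F](w) F(w) ≤ K Br`.
Sum (module Op): `Q(G)(v) - Q(F)(w) ≤ K (Br + (1+Γ)² Γ o W_q(v))`; for `λ > K`, `μ` large no touching (module Fin).
-/

set_option autoImplicit false

open MeasureTheory Set Filter Topology Pool.Agent.H25.Kin Pool.Agent.H48.PR
open Pool.Agent.H48.PD (FB)

namespace Pool.Agent.H87.QL

variable {d : ℕ}

/-- `√(|η|² + o²)` -/
noncomputable def rt (o : ℝ) (η : Vec d) : ℝ := √(nsq η + o ^ 2)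

/-- the barrier -/
noncomputable def Br (q P : ℕ) (o Γ : ℝ) (v w : Vec d) : ℝ :=
  o * Wp q v + Γ * (rt o (v - w) * Wp P v)

/-- a touching pair -/
structure TL (Cl : ℕ → ℝ) (q P : ℕ) (o Γ : ℝ) (F G : Vec d → ℝ) (v w : Vec d) : Prop where
  hF : FB Cl F
  hG : FB Cl G
  o0 : 0 < o
  gam : 1 ≤ Γ
  near : len (v - w) ≤ 1
  up : ∀ v' w' : Vec d, G v' - F w' ≤ Br q P o Γ v' w'
  upF : ∀ v' w' : Vec d, F v' - G w' ≤ Br q P o Γ v' w'
  tou : G v - F w = Br q P o Γ v w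

lemma rt_pos {o : ℝ} (ho : 0 < o) (η : Vec d) : 0 < rt o η := by
  unfold rt
  have := sq_nonneg' η
  exact Real.sqrt_pos.2 (by positivity)

lemma rt_nonneg (o : ℝ) (η : Vec d) : 0 ≤ rt o η := Real.sqrt_nonneg _

lemma rt_sq (o : ℝ) (η : Vec d) : rt o η ^ 2 = nsq η + o ^ 2 := by
  unfold rt
  have := sq_nonneg' η
  exact Real.sq_sqrt (by positivity)

lemma o_le_rt (o : ℝ) (η : Vec d) : o ≤ rt o η := by
  unfold rt
  have := sq_nonneg' η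
  exact Real.le_sqrt_of_sq_le (by linarith)

lemma len_le_rt (o : ℝ) (η : Vec d) : len η ≤ rt o η := by
  unfold rt len
  exact Real.sqrt_le_sqrt (by linarith [sq_nonneg o])

lemma rt_zero {o : ℝ} (ho : 0 ≤ o) : rt o (0 : Vec d) = o := by
  unfold rt
  have h : nsq (0 : Vec d) = 0 := by simp [nsq]
  rw [h, zero_add]
  exact Real.sqrt_sq ho

lemma rt_mono {o o' : ℝ} (ho : 0 ≤ o) (h : o ≤ o') (η : Vec d) : rt o η ≤ rt o' η := by
  unfold rt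
  exact Real.sqrt_le_sqrt (by have := pow_le_pow_left₀ ho h 2; linarith)

lemma Wp_anti {p q : ℕ} (h : p ≤ q) (v : Vec d) : Wp q v ≤ Wp p v := by
  unfold Wp
  have h1 := sq_nonneg' v
  exact inv_anti₀ (by positivity) (pow_le_pow_right₀ (by linarith) h)

lemma nsq_cm {v w : Vec d} (h : len (v - w) ≤ 1) : 1 + nsq w ≤ 3 * (1 + nsq v) := by
  have h1 : nsq (v - w) ≤ 1 := by
    rw [← len_sq]
    have := len_nonneg (v - w)
    nlinarith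
  have h2 : nsq w ≤ 2 * nsq v + 2 * nsq (v - w) := by
    unfold nsq
    rw [Finset.mul_sum, Finset.mul_sum, ← Finset.sum_add_distrib]
    refine Finset.sum_le_sum fun i _ => ?_
    simp only [Pi.sub_apply]
    nlinarith [sq_nonneg (2 * v i - w i)]
  have := sq_nonneg' v
  linarith

lemma nsq_cm' {v w : Vec d} (h : len (v - w) ≤ 1) : 1 + nsq v ≤ 3 * (1 + nsq w) := by
  rw [len_comm] at h
  exact nsq_cm h

/-- `W_p(w) ≤ 3^p W_p(v)` for `|v-w| ≤ 1` -/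
lemma Wp_cm {v w : Vec d} (h : len (v - w) ≤ 1) (p : ℕ) : Wp p w ≤ 3 ^ p * Wp p v := by
  have h1 := nsq_cm' h
  have hv := sq_nonneg' v
  have hw := sq_nonneg' w
  unfold Wp
  rw [← div_eq_mul_inv, inv_eq_one_div, div_le_div_iff₀ (by positivity) (by positivity), one_mul,
    ← mul_pow]
  exact pow_le_pow_left₀ (by linarith) h1 p

/-- `f ≤ (d+1)^p Cl(2p) W_p` -/
lemma FB.wp {Cl : ℕ → ℝ} {f : Vec d → ℝ} (hf : FB Cl f) (p : ℕ) (v : Vec d) :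
    f v ≤ ((d : ℝ) + 1) ^ p * Cl (2 * p) * Wp p v := by
  have hn := norm_nonneg v
  have h2 : 1 + nsq v ≤ ((d : ℝ) + 1) * (1 + ‖v‖) ^ 2 := one_add_sq_le v
  have hq := sq_nonneg' v
  have h5 : (1 + nsq v) ^ p ≤ ((d : ℝ) + 1) ^ p * (1 + ‖v‖) ^ (2 * p) := by
    rw [pow_mul, ← mul_pow]
    exact pow_le_pow_left₀ (by linarith) h2 p
  have h7 : f v * (1 + nsq v) ^ p ≤ ((d : ℝ) + 1) ^ p * Cl (2 * p) := by
    calc f v * (1 + nsq v) ^ p
        ≤ f v * (((d : ℝ) + 1) ^ p * (1 + ‖v‖) ^ (2 * p)) :=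
          mul_le_mul_of_nonneg_left h5 (hf.nonneg v)
      _ = ((d : ℝ) + 1) ^ p * ((1 + ‖v‖) ^ (2 * p) * f v) := by ring
      _ ≤ ((d : ℝ) + 1) ^ p * Cl (2 * p) :=
          mul_le_mul_of_nonneg_left (hf.le (2 * p) v) (by positivity)
  have h8 : f v = f v * (1 + nsq v) ^ p * Wp p v := by
    rw [mul_assoc, mul_comm ((1 + nsq v) ^ p) (Wp p v), Wp_mul, mul_one]
  rw [h8]
  exact mul_le_mul_of_nonneg_right h7 (Wp_pos p v).le

lemma FB.cl_nonneg {Cl : ℕ → ℝ} {f : Vec d → ℝ} (hf : FB Cl f) (N : ℕ) : 0 ≤ Cl N :=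
  le_trans (mul_nonneg (pow_nonneg (w_pos 0).le N) (hf.nonneg 0)) (hf.le N 0)

lemma TL.dif {Cl : ℕ → ℝ} {q P : ℕ} {o Γ : ℝ} {F G : Vec d → ℝ} {v w : Vec d}
    (h : TL Cl q P o Γ F G v w) (hqP : q ≤ P) (u : Vec d) :
    |G u - F u| ≤ (1 + Γ) * o * Wp q u := by
  have h1 := h.up u u
  have h2 := h.upF u u
  unfold Br at h1 h2
  rw [sub_self, rt_zero h.o0.le] at h1 h2
  have h3 : Γ * (o * Wp P u) ≤ Γ * (o * Wp q u) :=
    mul_le_mul_of_nonneg_left (mul_le_mul_of_nonneg_left (Wp_anti hqP u) h.o0.le)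
      (zero_le_one.trans h.gam)
  rw [abs_le]
  constructor <;> nlinarith

lemma Br_pos {q P : ℕ} {o Γ : ℝ} (ho : 0 < o) (hΓ : 0 ≤ Γ) (v w : Vec d) : 0 < Br q P o Γ v w := by
  unfold Br
  have h1 := mul_pos ho (Wp_pos q v)
  have h2 := mul_nonneg hΓ (mul_nonneg (rt_nonneg o (v - w)) (Wp_pos P v).le)
  linarith

end Pool.Agent.H87.QL
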