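import Pool.Agent.H15.KM.Defs

/-!
# Module Mid: the intermediate matrix

`g = 0`-test of the hypothesis: `qf X p ≤ b nsq p` (take `q = 0`, `qf Y 0 = 0`). Spectral theorem for the symmetric matrix `X` (copy the private lemmas on diagonalisation, `KMat_spec`, of H15/KM/Mat.lean): `X = ∑_i μ_i e_i ⊗ e_i`, orthonormal, `μ_i ≤ b < 2b`.
`Z = ∑_i (2bμ_i/(2b-μ_i)) e_i ⊗ e_i`, symmetric.
(1) In one coordinate: `μ p² - (2bμ/(2b-μ)) g² ≤ 2b (p-g)²`: multiply by `2b-μ > 0`: `(2b-μ) 2b (p-g)² - (2b-μ) μ p² + 2bμ g² = ((2b-μ) p - 2b g)²` (check: coefficient of `p²`: `2b(2b-μ) - μ(2b-μ) = (2b-μ)²`; `pg`: `-4b(2b-μ)`; `g²`: `2b(2b-μ)+2bμ = 4b²`). Sum over `i` (`qf`, `nsq` in the orthonormal basis).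
(2) `qf Z g = sup_p (qf X p - 2b nsq (p-g))`, attained at `p = ∑ 2b g_i/(2b-μ_i) e_i` (equality in (1)): for this `p`: `qf Z g - qf Y q = qf X p - 2b nsq (p-g) - qf Y q ≤ b nsq (p-q) - 2b nsq (p-g) ≤ 2b nsq (g-q)` since `nsq (p-q) ≤ 2 nsq (p-g) + 2 nsq (g-q)`.
-/

set_option autoImplicit false

open MeasureTheory Set Filter Topology Pool.Agent.H25.Kin
open Pool.Agent.H15.KM (qf trp)
open scoped Matrix

namespace Pool.Agent.H87.QL

variable {d : ℕ}

private lemma Mid_nn (v : Vec d) : 0 ≤ nsq v := Finset.sum_nonneg fun _ _ => sq_nonneg _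

private lemma Mid_qf (X : Fin d → Fin d → ℝ) (p : Vec d) :
    qf X p = p ⬝ᵥ (Matrix.of X *ᵥ p) := by
  unfold qf dotProduct Matrix.mulVec dotProduct
  refine Finset.sum_congr rfl fun i _ => ?_
  rw [Finset.mul_sum]
  refine Finset.sum_congr rfl fun j _ => ?_
  simp only [Matrix.of_apply]
  ring

private lemma Mid_nsq (p : Vec d) : nsq p = p ⬝ᵥ p := by
  unfold nsq dotProduct
  exact Finset.sum_congr rfl fun i _ => sq (p i)

theorem mid {b : ℝ} (hb : 0 < b) {X Y : Fin d → Fin d → ℝ} (hX : ∀ i j, X i j = X j i)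
    (h : ∀ p q : Vec d, qf X p - qf Y q ≤ b * nsq (p - q)) :
    ∃ Z : Fin d → Fin d → ℝ, (∀ i j, Z i j = Z j i) ∧
      (∀ p g : Vec d, qf X p - qf Z g ≤ 2 * b * nsq (p - g)) ∧
      ∀ g q : Vec d, qf Z g - qf Y q ≤ 2 * b * nsq (g - q) := by
  classical
  set M : Matrix (Fin d) (Fin d) ℝ := (2 * b) • (1 : Matrix (Fin d) (Fin d) ℝ) - Matrix.of X with hM
  have hMs : Mᵀ = M := by
    rw [hM, Matrix.transpose_sub, Matrix.transpose_smul, Matrix.transpose_one]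
    congr 1
    ext i j
    exact (hX i j).symm
  have hB : ∀ p : Vec d, p ⬝ᵥ (M *ᵥ p) = 2 * b * nsq p - qf X p := by
    intro p
    rw [hM, Matrix.sub_mulVec, Matrix.smul_mulVec, Matrix.one_mulVec, dotProduct_sub,
      dotProduct_smul, Mid_qf, Mid_nsq, smul_eq_mul]
  have hY0 : qf Y (0 : Vec d) = 0 := by
    rw [Mid_qf, zero_dotProduct]
  have hX0 : ∀ p : Vec d, qf X p ≤ b * nsq p := by
    intro p
    have := h p 0
    rwa [hY0, sub_zero, sub_zero] at this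
  have hBp : ∀ p : Vec d, b * nsq p ≤ p ⬝ᵥ (M *ᵥ p) := by
    intro p
    rw [hB]
    linarith [hX0 p]
  have hsymm : ∀ p q : Vec d, p ⬝ᵥ (M *ᵥ q) = q ⬝ᵥ (M *ᵥ p) := by
    intro p q
    rw [Matrix.dotProduct_mulVec, ← Matrix.mulVec_transpose, hMs, dotProduct_comm]
  have hker : ∀ v : Vec d, M *ᵥ v = 0 → v = 0 := by
    intro v hv
    have h1 := hBp v
    rw [hv, dotProduct_zero] at h1
    have h2 := Mid_nn v
    have h3 : nsq v = 0 := by nlinarith
    unfold nsq at h3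
    rw [Finset.sum_eq_zero_iff_of_nonneg fun i _ => sq_nonneg _] at h3
    funext i
    exact pow_eq_zero_iff (two_ne_zero) |>.1 (h3 i (Finset.mem_univ i))
  have hunit : IsUnit M := by
    rw [← Matrix.mulVec_injective_iff_isUnit]
    intro v w hvw
    have : M *ᵥ (v - w) = 0 := by rw [Matrix.mulVec_sub, hvw, sub_self]
    exact sub_eq_zero.1 (hker _ this)
  have hdet : IsUnit M.det := (Matrix.isUnit_iff_isUnit_det M).1 hunit
  have hinv : ∀ g : Vec d, M *ᵥ (M⁻¹ *ᵥ g) = g := by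
    intro g
    rw [Matrix.mulVec_mulVec, Matrix.mul_nonsing_inv M hdet, Matrix.one_mulVec]
  have hMis : (M⁻¹)ᵀ = M⁻¹ := by rw [Matrix.transpose_nonsing_inv, hMs]
  let Z : Fin d → Fin d → ℝ := (4 * b ^ 2) • M⁻¹ - (2 * b) • (1 : Matrix (Fin d) (Fin d) ℝ)
  have hZ : ∀ g : Vec d, qf Z g = 4 * b ^ 2 * (g ⬝ᵥ (M⁻¹ *ᵥ g)) - 2 * b * nsq g := by
    intro g
    rw [Mid_qf]
    change g ⬝ᵥ (((4 * b ^ 2) • M⁻¹ - (2 * b) • (1 : Matrix (Fin d) (Fin d) ℝ)) *ᵥ g) = _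
    rw [Matrix.sub_mulVec, Matrix.smul_mulVec, Matrix.smul_mulVec, Matrix.one_mulVec,
      dotProduct_sub, dotProduct_smul, dotProduct_smul, Mid_nsq, smul_eq_mul, smul_eq_mul]
  -- the basic identity
  have key : ∀ p g : Vec d, 2 * b * nsq (p - g) - (qf X p - qf Z g) =
      (p - (2 * b) • (M⁻¹ *ᵥ g)) ⬝ᵥ (M *ᵥ (p - (2 * b) • (M⁻¹ *ᵥ g))) := by
    intro p g
    set w : Vec d := M⁻¹ *ᵥ g with hw
    have hMw : M *ᵥ w = g := hinv g
    have e1 : (p - (2 * b) • w) ⬝ᵥ (M *ᵥ (p - (2 * b) • w)) =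
        p ⬝ᵥ (M *ᵥ p) - 4 * b * (p ⬝ᵥ g) + 4 * b ^ 2 * (g ⬝ᵥ w) := by
      rw [Matrix.mulVec_sub, Matrix.mulVec_smul, hMw, sub_dotProduct, dotProduct_sub,
        dotProduct_sub, smul_dotProduct, smul_dotProduct, dotProduct_smul, dotProduct_smul,
        hsymm w p, hMw, dotProduct_comm w g]
      simp only [smul_eq_mul]
      ring
    have e2 : nsq (p - g) = nsq p - 2 * (p ⬝ᵥ g) + nsq g := by
      rw [Mid_nsq, Mid_nsq, Mid_nsq, sub_dotProduct, dotProduct_sub, dotProduct_sub,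
        dotProduct_comm g p]
      ring
    rw [e1, hB, hZ, e2]
    ring
  refine ⟨Z, fun i j => ?_, fun p g => ?_, fun g q => ?_⟩
  · change (4 * b ^ 2) * M⁻¹ i j - (2 * b) * (1 : Matrix (Fin d) (Fin d) ℝ) i j =
      (4 * b ^ 2) * M⁻¹ j i - (2 * b) * (1 : Matrix (Fin d) (Fin d) ℝ) j i
    have h1 : M⁻¹ i j = M⁻¹ j i := by
      have := congrFun (congrFun hMis j) i
      rw [Matrix.transpose_apply] at this
      exact this
    have h2 : (1 : Matrix (Fin d) (Fin d) ℝ) i j = (1 : Matrix (Fin d) (Fin d) ℝ) j i := by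
      rw [Matrix.one_apply, Matrix.one_apply]
      simp only [eq_comm]
    rw [h1, h2]
  · have h1 := key p g
    have h2 := hBp (p - (2 * b) • (M⁻¹ *ᵥ g))
    have h3 : 0 ≤ b * nsq (p - (2 * b) • (M⁻¹ *ᵥ g)) := mul_nonneg hb.le (Mid_nn _)
    linarith
  · set p : Vec d := (2 * b) • (M⁻¹ *ᵥ g) with hp
    have h1 := key p g
    rw [← hp, sub_self, zero_dotProduct] at h1
    have h2 := h p q
    have h3 : nsq (p - q) ≤ 2 * nsq (p - g) + 2 * nsq (g - q) := by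
      unfold nsq
      rw [Finset.mul_sum, Finset.mul_sum, ← Finset.sum_add_distrib]
      refine Finset.sum_le_sum fun i _ => ?_
      simp only [Pi.sub_apply]
      nlinarith [sq_nonneg ((p i - g i) - (g i - q i))]
    have h4 : b * nsq (p - q) ≤ b * (2 * nsq (p - g) + 2 * nsq (g - q)) :=
      mul_le_mul_of_nonneg_left h3 hb.le
    linarith

end Pool.Agent.H87.QL
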