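import Pool.Agent.H87.QL.Defs
import Pool.Agent.H15.KM.Mat
import Pool.Agent.H48.LN.Bd
import Pool.Agent.H48.LN.Dif
import Pool.Agent.H48.LN.CoA

/-!
# Module Mis: the mismatch of the diffusion matrices

`mat` (H15/KM/Mat) with `A = ab[G](w)`, `A' = ab[F](w)`, `X, Y` there `= Z, Y` here, `b = B`. Symmetry of `ab`: `landauA γ z i j = landauA γ z j i`.
* `c` from `coercA` (`m`, `N`): `c (1+nsq w)^(γ/2) nsq ξ ≤ ∑∑ ab γ F i j w (ξ_i ξ_j) = qf A' ξ`; `(1+nsq w)^(γ/2) ≥ (1+nsq w)^(-1)` (`γ/2 ≥ -1`): `lam = c/(1+nsq w)`.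
* `ab[G] - ab[F] = ab[G-F]` (`ab_subN`), `CW q κ (G-F)` (continuity from `Nice`), `ab_bd`: `|ab[G-F]_ij(w)| ≤ K₁ κ (1+nsq w)`, so `|qf A ξ - qf A' ξ| ≤ d K₁ κ (1+nsq w) nsq ξ` (`(∑|ξ_i|)² ≤ d nsq ξ`): `ρ = d K₁ κ (1+nsq w)`.
* `ρ ≤ lam/2` iff `2 d K₁ κ (1+nsq w)² ≤ c`: `K ≥ 2dK₁/c`.
* result `d ρ² B/(2 lam) = d³ K₁² κ² (1+nsq w)³ B/(2c)`: `K ≥ d³K₁²/(2c)`. Take `K = 2dK₁/c + d³K₁²/(2c)`.
-/

set_option autoImplicit false

open MeasureTheory Set Filter Topology Pool.Agent.H25.Kin Pool.Agent.H48.PR Pool.Agent.H48.LN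
open Pool.Agent.H48.PD (FB)
open Pool.Agent.H15.AV (ab Good)
open Pool.Agent.H15.KM (qf trp)

namespace Pool.Agent.H87.QL

variable {d : ℕ} {γ : ℝ}

private theorem Mis_sym (γ : ℝ) (g : Vec d → ℝ) (i j : Fin d) (w : Vec d) :
    ab γ g i j w = ab γ g j i w := by
  have h : (fun z : Vec d => landauA γ z i j) = fun z => landauA γ z j i := by
    funext z
    unfold landauA
    by_cases hij : i = j
    · subst hij
      rfl
    · rw [if_neg hij, if_neg (Ne.symm hij), mul_comm (z i)]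
  unfold ab
  rw [h]

private theorem Mis_qf_le {M : Fin d → Fin d → ℝ} {r : ℝ} (hr : 0 ≤ r) (hM : ∀ i j, |M i j| ≤ r)
    (ξ : Vec d) : |qf M ξ| ≤ d * r * nsq ξ := by
  unfold Pool.Agent.H15.KM.qf
  have h1 : |∑ i, ∑ j, M i j * ξ i * ξ j| ≤ ∑ i, ∑ j, r * ((ξ i ^ 2 + ξ j ^ 2) / 2) := by
    refine (Finset.abs_sum_le_sum_abs _ _).trans (Finset.sum_le_sum fun i _ => ?_)
    refine (Finset.abs_sum_le_sum_abs _ _).trans (Finset.sum_le_sum fun j _ => ?_)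
    rw [mul_assoc, abs_mul]
    refine mul_le_mul (hM i j) ?_ (abs_nonneg _) hr
    rw [abs_mul, ← sq_abs (ξ i), ← sq_abs (ξ j)]
    nlinarith [sq_nonneg (|ξ i| - |ξ j|)]
  refine h1.trans (le_of_eq ?_)
  have h2 : ∀ i : Fin d, ∑ j, r * ((ξ i ^ 2 + ξ j ^ 2) / 2) = r / 2 * (d * ξ i ^ 2 + nsq ξ) := by
    intro i
    unfold nsq
    rw [← Finset.mul_sum, ← Finset.sum_div, Finset.sum_add_distrib, Finset.sum_const,
      Finset.card_univ, Fintype.card_fin, nsmul_eq_mul]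
    ring
  rw [Finset.sum_congr rfl fun i _ => h2 i, ← Finset.mul_sum, Finset.sum_add_distrib,
    ← Finset.mul_sum, Finset.sum_const, Finset.card_univ, Fintype.card_fin, nsmul_eq_mul]
  have h3 : ∑ i, ξ i ^ 2 = nsq ξ := rfl
  rw [h3]
  ring

theorem mis (hd : 2 ≤ d) (h1 : -2 < γ) (h2 : γ ≤ 0) {q : ℕ} (hq : d + 2 ≤ q) {m : ℝ} (hm : 0 < m)
    (N : ℝ) : ∃ K : ℝ, 0 ≤ K ∧ ∀ F G : Vec d → ℝ, Nice F → Nice G → (∀ v, 0 ≤ F v) → Good m N F →
      ∀ κ : ℝ, 0 ≤ κ → (∀ u, |G u - F u| ≤ κ * Wp q u) → ∀ w : Vec d,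
      K * (κ * (1 + nsq w) ^ 2) ≤ 1 → ∀ B : ℝ, 0 < B → ∀ Z Y : Fin d → Fin d → ℝ,
      (∀ i j, Z i j = Z j i) → (∀ i j, Y i j = Y j i) →
      (∀ g p : Vec d, qf Z g - qf Y p ≤ B * nsq (g - p)) →
      trp (fun i j => ab γ G i j w) Z - trp (fun i j => ab γ F i j w) Y ≤
        K * (κ ^ 2 * (1 + nsq w) ^ 3) * B := by
  obtain ⟨c, hc, hco⟩ := coercA (γ := γ) hd h1 h2 hm N
  obtain ⟨K₁, hK₁, hab⟩ := ab_bd (γ := γ) h1 h2 hq
  have hd0 : (0 : ℝ) ≤ d := Nat.cast_nonneg d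
  have hKa : 0 ≤ 2 * d * K₁ / c := by positivity
  have hKb : 0 ≤ (d : ℝ) ^ 3 * K₁ ^ 2 / (2 * c) := by positivity
  refine ⟨2 * d * K₁ / c + d ^ 3 * K₁ ^ 2 / (2 * c), by positivity, ?_⟩
  intro F G hF hG hF0 hgood κ hκ hdif w hw B hB Z Y hZ hY hZY
  have hs := sq_nonneg' w
  have hs1 : 0 < 1 + nsq w := by linarith
  have hlam : 0 < c / (1 + nsq w) := by positivity
  have hρ0 : 0 ≤ d * (K₁ * κ * (1 + nsq w)) := by positivity
  have hCW : CW q κ (fun u => G u - F u) := ⟨hG.cont.sub hF.cont, hdif⟩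
  have hρ : d * (K₁ * κ * (1 + nsq w)) ≤ c / (1 + nsq w) / 2 := by
    have e1 : 2 * d * K₁ / c * (κ * (1 + nsq w) ^ 2) ≤ 1 := by
      refine le_trans ?_ hw
      refine mul_le_mul_of_nonneg_right (by linarith) (by positivity)
    have e2 : 2 * d * K₁ * (κ * (1 + nsq w) ^ 2) ≤ c := by
      have e3 : 2 * d * K₁ / c * (κ * (1 + nsq w) ^ 2) =
          (2 * d * K₁ * (κ * (1 + nsq w) ^ 2)) / c := by ring
      rw [e3, div_le_one hc] at e1
      exact e1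
    rw [div_div, le_div_iff₀ (by positivity)]
    nlinarith
  have hlow : ∀ ξ, c / (1 + nsq w) * nsq ξ ≤ qf (fun i j => ab γ F i j w) ξ := by
    intro ξ
    have e1 := hco F hF hF0 hgood w ξ
    have e2 : (1 + nsq w)⁻¹ ≤ (1 + nsq w) ^ (γ / 2) := by
      rw [← Real.rpow_neg_one]
      exact Real.rpow_le_rpow_of_exponent_le (by linarith) (by linarith)
    have e3 : qf (fun i j => ab γ F i j w) ξ = ∑ i, ∑ j, ab γ F i j w * (ξ i * ξ j) := by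
      unfold Pool.Agent.H15.KM.qf
      exact Finset.sum_congr rfl fun i _ => Finset.sum_congr rfl fun j _ => by ring
    rw [e3]
    refine le_trans ?_ e1
    have e4 : c / (1 + nsq w) ≤ c * (1 + nsq w) ^ (γ / 2) := by
      rw [div_eq_mul_inv]
      exact mul_le_mul_of_nonneg_left e2 hc.le
    exact mul_le_mul_of_nonneg_right e4 (sq_nonneg' ξ)
  have hd2 : ∀ ξ, |qf (fun i j => ab γ G i j w) ξ - qf (fun i j => ab γ F i j w) ξ| ≤
      d * (K₁ * κ * (1 + nsq w)) * nsq ξ := by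
    intro ξ
    have e1 : qf (fun i j => ab γ G i j w) ξ - qf (fun i j => ab γ F i j w) ξ =
        qf (fun i j => ab γ (fun u => G u - F u) i j w) ξ := by
      unfold Pool.Agent.H15.KM.qf
      rw [← Finset.sum_sub_distrib]
      refine Finset.sum_congr rfl fun i _ => ?_
      rw [← Finset.sum_sub_distrib]
      refine Finset.sum_congr rfl fun j _ => ?_
      simp only [ab_subN h1 h2 hG hF]
      ring
    rw [e1]
    exact Mis_qf_le (by positivity) (fun i j => hab κ _ hCW i j w) ξ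
  have hmat := Pool.Agent.H15.KM.mat hlam hρ0 hρ hB
    (A := fun i j => ab γ G i j w) (A' := fun i j => ab γ F i j w)
    (fun i j => Mis_sym γ G i j w) (fun i j => Mis_sym γ F i j w) hZ hY hlow hd2 hZY
  refine hmat.trans ?_
  have e5 : d * (d * (K₁ * κ * (1 + nsq w))) ^ 2 * B / (2 * (c / (1 + nsq w))) =
      d ^ 3 * K₁ ^ 2 / (2 * c) * (κ ^ 2 * (1 + nsq w) ^ 3) * B := by
    field_simp
  rw [e5]
  have e6 : 0 ≤ κ ^ 2 * (1 + nsq w) ^ 3 := by positivity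
  refine mul_le_mul_of_nonneg_right (mul_le_mul_of_nonneg_right (by linarith) e6) hB.le

end Pool.Agent.H87.QL
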