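import Pool.Agent.H87.QL.Defs

/-!
# Module Sml: at a touching point `κ (1+|w|²)²` is small

`o W_q(v) ≤ Br = G v - F w ≤ G v ≤ C W_(q+4)(v)`, `C = (d+1)^(q+4) Cl(2(q+4))` (`FB.wp`, `C ≥ 0` by `FB.cl_nonneg`; if `Cl` is bad there is no touching pair, so choose `ε₁` with `|C|`). `W_(q+4)(v) = W_q(v)/(1+nsq v)^4`: `o (1+nsq v)^4 ≤ C`.
`κ (1+nsq w)² ≤ 9 κ (1+nsq v)²` (`nsq_cm`), `(κ (1+nsq v)²)² = (1+Γ)² o * (o (1+nsq v)^4) ≤ (1+Γ)² o C ≤ ε₁ C`. So `κ (1+nsq w)² ≤ 9 √(ε₁ C) ≤ ε` for `ε₁ = ε²/(81 (|C|+1))`.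
-/

set_option autoImplicit false

open MeasureTheory Set Filter Topology Pool.Agent.H25.Kin Pool.Agent.H48.PR
open Pool.Agent.H48.PD (FB)

namespace Pool.Agent.H87.QL

variable {d : ℕ}

theorem sml (q P : ℕ) (Cl : ℕ → ℝ) {ε : ℝ} (hε : 0 < ε) : ∃ ε₁ > 0,
    ∀ (o Γ : ℝ) (F G : Vec d → ℝ) (v w : Vec d), TL Cl q P o Γ F G v w →
      (1 + Γ) ^ 2 * o ≤ ε₁ → (1 + Γ) * o * (1 + nsq w) ^ 2 ≤ ε := by
  obtain ⟨C, hC⟩ : ∃ C : ℝ, C = ((d : ℝ) + 1) ^ (q + 4) * |Cl (2 * (q + 4))| := ⟨_, rfl⟩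
  have hC0 : 0 ≤ C := by rw [hC]; positivity
  refine ⟨ε ^ 2 / (81 * (C + 1)), by positivity, fun o Γ F G v w h hs => ?_⟩
  have ho := h.o0
  have hΓ := h.gam
  have hv := sq_nonneg' v
  have hw := sq_nonneg' w
  have h1 := h.tou
  have h2 := h.hF.nonneg w
  have h3 := FB.wp h.hG (q + 4) v
  have hWq := Wp_pos (q + 4) v
  have h4 : ((d : ℝ) + 1) ^ (q + 4) * Cl (2 * (q + 4)) * Wp (q + 4) v ≤ C * Wp (q + 4) v := by
    rw [hC]
    refine mul_le_mul_of_nonneg_right (mul_le_mul_of_nonneg_left (le_abs_self _) ?_) hWq.le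
    positivity
  have h5 : o * Wp q v ≤ Br q P o Γ v w := by
    unfold Br
    have := mul_nonneg (zero_le_one.trans hΓ) (mul_nonneg (rt_nonneg o (v - w)) (Wp_pos P v).le)
    linarith
  have h6 : o * Wp q v ≤ C * Wp (q + 4) v := by linarith
  have hb : 0 < 1 + nsq v := by linarith
  have h7 : o * (1 + nsq v) ^ 4 ≤ C := by
    have h8 := mul_le_mul_of_nonneg_right h6 (pow_pos hb (q + 4)).le
    have e1 : C * Wp (q + 4) v * (1 + nsq v) ^ (q + 4) = C := by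
      unfold Wp
      rw [mul_assoc, inv_mul_cancel₀ (pow_pos hb (q + 4)).ne', mul_one]
    have e2 : o * Wp q v * (1 + nsq v) ^ (q + 4) = o * (1 + nsq v) ^ 4 := by
      unfold Wp
      rw [pow_add, mul_assoc, ← mul_assoc (((1 + nsq v) ^ q)⁻¹),
        inv_mul_cancel₀ (pow_pos hb q).ne', one_mul]
    rw [e1, e2] at h8
    exact h8
  have hcm := nsq_cm h.near
  have h9 : (1 + nsq w) ^ 2 ≤ 9 * (1 + nsq v) ^ 2 := by
    have := pow_le_pow_left₀ (by linarith) hcm 2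
    calc (1 + nsq w) ^ 2 ≤ (3 * (1 + nsq v)) ^ 2 := this
      _ = 9 * (1 + nsq v) ^ 2 := by ring
  have hk : 0 ≤ (1 + Γ) * o := by positivity
  have h10 : (1 + Γ) * o * (1 + nsq w) ^ 2 ≤ 9 * ((1 + Γ) * o * (1 + nsq v) ^ 2) := by
    have := mul_le_mul_of_nonneg_left h9 hk
    linarith
  refine h10.trans ?_
  have h11 : (9 * ((1 + Γ) * o * (1 + nsq v) ^ 2)) ^ 2 ≤ ε ^ 2 := by
    have e3 : (9 * ((1 + Γ) * o * (1 + nsq v) ^ 2)) ^ 2 =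
        81 * (((1 + Γ) ^ 2 * o) * (o * (1 + nsq v) ^ 4)) := by ring
    rw [e3]
    have h12 : ((1 + Γ) ^ 2 * o) * (o * (1 + nsq v) ^ 4) ≤ ε ^ 2 / (81 * (C + 1)) * C :=
      mul_le_mul hs h7 (by positivity) (by positivity)
    have h13 : 81 * (ε ^ 2 / (81 * (C + 1)) * C) ≤ ε ^ 2 := by
      have e4 : 81 * (ε ^ 2 / (81 * (C + 1)) * C) = ε ^ 2 * C / (C + 1) := by
        field_simp
      rw [e4, div_le_iff₀ (by positivity)]
      nlinarith [sq_nonneg ε]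
    linarith
  exact (pow_le_pow_iff_left₀ (by positivity) hε.le two_ne_zero).1 h11

end Pool.Agent.H87.QL
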