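import Pool.Agent.H87.QL.SynP
import Pool.Agent.H87.QL.Defs
import Pool.Agent.H48.LN.LenI
import Pool.Agent.H48.LN.Bd

/-!
# Module SynI: synchronous coupling, integrated

`ab γ G i j v = ∫ landauA γ z i j * G (v-z) dz = ∫ landauA γ (v-u) i j * G u du` (translation and reflection, `integral_sub_left_eq_self`), integrable (`kern_landauA`, `Kern.integrable`, `hG.nice.rd`). Hence (finite sums)
`trp (ab[G](v)) X - trp (ab[G](w)) Z = ∫ G u (trp (landauA γ (v-u)) X - trp (landauA γ (w-u)) Z) du ≤ ∫ G u B (d+1) nsq (v-w) (len (v-u) ^ γ + len (w-u) ^ γ) du` (`synP`, `(v-u)-(w-u) = v-w`, `G ≥ 0`)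
`≤ B (d+1) nsq (v-w) * 2 * C K'`: `G ≤ C Wp (d+1)` (`FB.wp`, `C = (d+1)^(d+1) Cl(2(d+1)) ≥ 0`), `∫ len z ^ γ Wp (d+1) (v-z) dz ≤ K' (1+nsq v)^(γ/2) ≤ K'` (`len_loc`; it also gives the integrability; `(1+nsq v)^(γ/2) ≤ 1`). `K = 2 (d+1) |C| K'`.
-/

set_option autoImplicit false

open MeasureTheory Set Filter Topology Pool.Agent.H25.Kin Pool.Agent.H48.PR Pool.Agent.H48.LN
open Pool.Agent.H48.PD (FB)
open Pool.Agent.H15.AV (ab)
open Pool.Agent.H15.KM (qf trp)

namespace Pool.Agent.H87.QL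

variable {d : ℕ} {γ : ℝ}

private lemma SynI_rep (h1 : -2 < γ) (h2 : γ ≤ 0) {G : Vec d → ℝ} (hG : Nice G)
    (X : Fin d → Fin d → ℝ) (v : Vec d) :
    Integrable (fun u => trp (landauA γ (v - u)) X * G u) ∧
      trp (fun i j => ab γ G i j v) X = ∫ u, trp (landauA γ (v - u)) X * G u := by
  have hI : ∀ i j : Fin d, Integrable fun u => landauA γ (v - u) i j * G u := by
    intro i j
    have h3 := (kern_landauA (d := d) h1 h2 i j).integrable hG.cont hG.rd v
    simp only [smul_eq_mul] at h3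
    have h4 := h3.comp_sub_left v
    simp only [sub_sub_cancel] at h4
    exact h4
  have hE : ∀ i j : Fin d, ab γ G i j v = ∫ u, landauA γ (v - u) i j * G u := by
    intro i j
    unfold Pool.Agent.H15.AV.ab conv
    rw [← integral_sub_left_eq_self (fun u => landauA γ (v - u) i j * G u) volume v]
    simp only [sub_sub_cancel, smul_eq_mul]
  have e : (fun u => trp (landauA γ (v - u)) X * G u) =
      fun u => ∑ i, ∑ j, landauA γ (v - u) i j * G u * X i j := by
    funext u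
    unfold trp
    rw [Finset.sum_mul]
    refine Finset.sum_congr rfl fun i _ => ?_
    rw [Finset.sum_mul]
    exact Finset.sum_congr rfl fun j _ => by ring
  have hIx : ∀ i j : Fin d, Integrable fun u => landauA γ (v - u) i j * G u * X i j :=
    fun i j => (hI i j).mul_const _
  rw [e]
  refine ⟨integrable_finsetSum _ fun i _ => integrable_finsetSum _ fun j _ => hIx i j, ?_⟩
  rw [integral_finsetSum _ fun i _ => integrable_finsetSum _ fun j _ => hIx i j]
  unfold trp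
  refine Finset.sum_congr rfl fun i _ => ?_
  rw [integral_finsetSum _ fun j _ => hIx i j]
  refine Finset.sum_congr rfl fun j _ => ?_
  rw [integral_mul_const]
  exact congrArg (· * X i j) (hE i j)

theorem synI (hd : 2 ≤ d) (h1 : -2 < γ) (h2 : γ ≤ 0) (Cl : ℕ → ℝ) : ∃ K : ℝ, 0 ≤ K ∧
    ∀ G : Vec d → ℝ, FB Cl G → ∀ B : ℝ, 0 ≤ B → ∀ X Z : Fin d → Fin d → ℝ,
      (∀ p g : Vec d, qf X p - qf Z g ≤ B * nsq (p - g)) → ∀ v w : Vec d,
      trp (fun i j => ab γ G i j v) X - trp (fun i j => ab γ G i j w) Z ≤ K * B * nsq (v - w) := by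
  obtain ⟨K', hK', hlen⟩ := len_loc (d := d) hd h1 h2 (q := d + 1) le_rfl
  set C : ℝ := ((d : ℝ) + 1) ^ (d + 1) * Cl (2 * (d + 1)) with hC
  refine ⟨2 * ((d : ℝ) + 1) * |C| * K', by positivity, fun G hG B hB X Z h v w => ?_⟩
  obtain ⟨iv, ev⟩ := SynI_rep h1 h2 hG.nice X v
  obtain ⟨iw, ew⟩ := SynI_rep h1 h2 hG.nice Z w
  have hloc : ∀ v : Vec d, Integrable (fun u => len (v - u) ^ γ * Wp (d + 1) u) ∧
      ∫ u, len (v - u) ^ γ * Wp (d + 1) u ≤ K' := by
    intro v
    obtain ⟨a1, a2⟩ := hlen v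
    have a3 := a1.comp_sub_left v
    simp only [sub_sub_cancel] at a3
    refine ⟨a3, ?_⟩
    have a4 : ∫ u, len (v - u) ^ γ * Wp (d + 1) u = ∫ z, len z ^ γ * Wp (d + 1) (v - z) := by
      rw [← integral_sub_left_eq_self (fun z => len z ^ γ * Wp (d + 1) (v - z)) volume v]
      simp only [sub_sub_cancel]
    rw [a4]
    refine a2.trans (mul_le_of_le_one_right hK' ?_)
    have := sq_nonneg' v
    exact Real.rpow_le_one_of_one_le_of_nonpos (by linarith) (by linarith)
  obtain ⟨jv, kv⟩ := hloc v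
  obtain ⟨jw, kw⟩ := hloc w
  have hn := sq_nonneg' (v - w)
  rw [ev, ew, ← integral_sub iv iw]
  have hpt : ∀ u, trp (landauA γ (v - u)) X * G u - trp (landauA γ (w - u)) Z * G u ≤
      B * (((d : ℝ) + 1) * nsq (v - w)) * |C| *
        (len (v - u) ^ γ * Wp (d + 1) u + len (w - u) ^ γ * Wp (d + 1) u) := by
    intro u
    have b1 := synP h1 h2 hB h (v - u) (w - u)
    rw [sub_sub_sub_cancel_right] at b1
    have b2 : G u ≤ |C| * Wp (d + 1) u :=
      (FB.wp hG (d + 1) u).trans (mul_le_mul_of_nonneg_right (le_abs_self C) (Wp_pos _ u).le)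
    have b3 := hG.nonneg u
    have b4 : 0 ≤ len (v - u) ^ γ := Real.rpow_nonneg (Real.sqrt_nonneg _) _
    have b5 : 0 ≤ len (w - u) ^ γ := Real.rpow_nonneg (Real.sqrt_nonneg _) _
    rw [← sub_mul]
    calc (trp (landauA γ (v - u)) X - trp (landauA γ (w - u)) Z) * G u
        ≤ (B * (((d : ℝ) + 1) * nsq (v - w) * (len (v - u) ^ γ + len (w - u) ^ γ))) * G u :=
          mul_le_mul_of_nonneg_right b1 b3
      _ ≤ (B * (((d : ℝ) + 1) * nsq (v - w) * (len (v - u) ^ γ + len (w - u) ^ γ))) *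
          (|C| * Wp (d + 1) u) := mul_le_mul_of_nonneg_left b2 (by positivity)
      _ = _ := by ring
  have hI := (jv.add jw).const_mul (B * (((d : ℝ) + 1) * nsq (v - w)) * |C|)
  refine (integral_mono (iv.sub iw) hI hpt).trans ?_
  simp only [Pi.add_apply]
  rw [integral_const_mul, integral_add jv jw]
  have hc : 0 ≤ B * (((d : ℝ) + 1) * nsq (v - w)) * |C| := by positivity
  calc B * (((d : ℝ) + 1) * nsq (v - w)) * |C| *
        ((∫ u, len (v - u) ^ γ * Wp (d + 1) u) + ∫ u, len (w - u) ^ γ * Wp (d + 1) u)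
      ≤ B * (((d : ℝ) + 1) * nsq (v - w)) * |C| * (K' + K') :=
        mul_le_mul_of_nonneg_left (add_le_add kv kw) hc
    _ = _ := by ring

end Pool.Agent.H87.QL
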