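import Pool.Agent.H87.QL.Defs
import Pool.Agent.H48.LN.Bd
import Pool.Agent.H48.LN.LenI

/-!
# Module Zer: the terms of order zero

`cb[G](v) G(v) - cb[F](w) F(w) = cb[G](v) (G(v) - F(w)) + (cb[G](v) - cb[F](w)) F(w)`.
(1) `0 ≤ cb[G](v) ≤ K₁ C (1+nsq v)^(γ/2) ≤ K₁ C` (`cb_nn`, `cb_bd` with `CW q C G`, `C = (d+1)^q Cl(2q)`), `G(v) - F(w) = Br > 0`.
(2) `cb[G](v) - cb[F](w) = c₀ ∫ len z ^ γ (G(v-z) - F(w-z)) dz`, `c₀ = (d-1)(d+γ) ≥ 0`, both integrable (`len_loc` and `0 ≤ G ≤ C W_(d+1)`), and `G(v-z) - F(w-z) ≤ Br (v-z) (w-z) = o W_q(v-z) + Γ rt o (v-w) W_P(v-z) ≤ (o + Γ rt o (v-w)) W_(d+1)(v-z)` (`up`, `(v-z)-(w-z) = v-w`, `Wp_anti`).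
 So `≤ c₀ K' (o + Γ rt)` by `len_loc`. (3) `0 ≤ F(w) ≤ C' W_P(w) ≤ C' 3^P W_P(v)` (`Wp_cm`), and `(o + Γ rt) W_P(v) ≤ o W_q(v) + Γ rt W_P(v) = Br`. `K = K₁|C| + c₀ K' |C'| 3^P`.
-/

set_option autoImplicit false

open MeasureTheory Set Filter Topology Pool.Agent.H25.Kin Pool.Agent.H48.PR Pool.Agent.H48.LN
open Pool.Agent.H48.PD (FB)

namespace Pool.Agent.H87.QL

variable {d : ℕ} {γ : ℝ}

private lemma zer_CW {Cl : ℕ → ℝ} {f : Vec d → ℝ} (hf : FB Cl f) (p : ℕ) :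
    CW p (((d : ℝ) + 1) ^ p * Cl (2 * p)) f :=
  ⟨hf.nice.cont, fun v => by rw [abs_of_nonneg (hf.nonneg v)]; exact FB.wp hf p v⟩

private lemma zer_rpow (h2 : γ ≤ 0) (v : Vec d) : (1 + nsq v) ^ (γ / 2) ≤ 1 :=
  Real.rpow_le_one_of_one_le_of_nonpos (by linarith [sq_nonneg' v]) (by linarith)

private lemma zer_int {q : ℕ} {Cl : ℕ → ℝ} {f : Vec d → ℝ} (hf : FB Cl f) {v : Vec d}
    (hi : Integrable (fun z => len z ^ γ * Wp q (v - z))) :
    Integrable fun z => len z ^ γ * f (v - z) := by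
  refine Integrable.mono' (hi.const_mul (((d : ℝ) + 1) ^ q * Cl (2 * q))) ?_
    (Eventually.of_forall fun z => ?_)
  · exact ((continuous_len.measurable.pow_const γ).mul
      (hf.nice.cont.comp (continuous_const.sub continuous_id)).measurable).aestronglyMeasurable
  · have a3 : 0 ≤ len z ^ γ := Real.rpow_nonneg (len_nonneg z) _
    rw [Real.norm_eq_abs, abs_mul, abs_of_nonneg a3, abs_of_nonneg (hf.nonneg _)]
    calc len z ^ γ * f (v - z)
        ≤ len z ^ γ * (((d : ℝ) + 1) ^ q * Cl (2 * q) * Wp q (v - z)) :=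
          mul_le_mul_of_nonneg_left (FB.wp hf q (v - z)) a3
      _ = _ := by ring

theorem zer (hd : 2 ≤ d) (h1 : -2 < γ) (h2 : γ ≤ 0) {q P : ℕ} (hq : d + 2 ≤ q) (hP : q ≤ P)
    (Cl : ℕ → ℝ) : ∃ K : ℝ, 0 ≤ K ∧ ∀ (o Γ : ℝ) (F G : Vec d → ℝ) (v w : Vec d),
      TL Cl q P o Γ F G v w →
      cb γ G v * G v - cb γ F w * F w ≤ K * Br q P o Γ v w := by
  obtain ⟨K₁, hK₁, hb⟩ := cb_bd (d := d) hd h1 h2 (q := q) hq
  obtain ⟨K₂, hK₂, hl⟩ := len_loc (d := d) hd h1 h2 (q := q) (by omega)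
  have hd' : (2 : ℝ) ≤ d := by exact_mod_cast hd
  set c₀ : ℝ := ((d : ℝ) - 1) * ((d : ℝ) + γ) with hc₀
  have hc : 0 ≤ c₀ := mul_nonneg (by linarith) (by linarith)
  set C : ℝ := ((d : ℝ) + 1) ^ q * Cl (2 * q) with hC
  set C' : ℝ := ((d : ℝ) + 1) ^ P * Cl (2 * P) with hC'
  refine ⟨K₁ * |C| + c₀ * K₂ * (|C'| * 3 ^ P), by positivity, fun o Γ F G v w h => ?_⟩
  have hBr : 0 < Br q P o Γ v w := Br_pos h.o0 (zero_le_one.trans h.gam) v w
  have hΓ : 0 ≤ Γ := zero_le_one.trans h.gam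
  have hrt := rt_nonneg o (v - w)
  have hWq := Wp_pos q v
  have hWP := Wp_pos P v
  -- the first part
  have p1 : cb γ G v * (G v - F w) ≤ K₁ * |C| * Br q P o Γ v w := by
    rw [h.tou]
    refine mul_le_mul_of_nonneg_right ?_ hBr.le
    refine (le_abs_self _).trans ((hb C G (zer_CW h.hG q) v).trans ?_)
    calc K₁ * C * (1 + nsq v) ^ (γ / 2) ≤ K₁ * |C| * (1 + nsq v) ^ (γ / 2) := by
          have h3 : 0 ≤ (1 + nsq v) ^ (γ / 2) :=
            Real.rpow_nonneg (by linarith [sq_nonneg' v]) _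
          exact mul_le_mul_of_nonneg_right (mul_le_mul_of_nonneg_left (le_abs_self C) hK₁) h3
      _ ≤ K₁ * |C| * 1 := mul_le_mul_of_nonneg_left (zer_rpow h2 v) (by positivity)
      _ = K₁ * |C| := mul_one _
  -- the difference of the coefficients
  have iv := hl v
  have iw := hl w
  have i1 := zer_int (γ := γ) h.hG iv.1
  have i2 := zer_int (γ := γ) h.hF iw.1
  have p2 : cb γ G v - cb γ F w ≤ c₀ * K₂ * (o + Γ * rt o (v - w)) := by
    have e1 : cb γ G v - cb γ F w = c₀ * ∫ z, (len z ^ γ * G (v - z) - len z ^ γ * F (w - z)) := by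
      unfold cb
      rw [integral_sub i1 i2]
      ring
    have e2 : ∫ z, (len z ^ γ * G (v - z) - len z ^ γ * F (w - z)) ≤
        ∫ z, (o + Γ * rt o (v - w)) * (len z ^ γ * Wp q (v - z)) := by
      refine integral_mono (i1.sub i2) (iv.1.const_mul _) fun z => ?_
      have a3 : 0 ≤ len z ^ γ := Real.rpow_nonneg (len_nonneg z) _
      have a4 := h.up (v - z) (w - z)
      have a5 : v - z - (w - z) = v - w := by abel
      unfold Br at a4
      rw [a5] at a4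
      have a6 : Γ * (rt o (v - w) * Wp P (v - z)) ≤ Γ * (rt o (v - w) * Wp q (v - z)) :=
        mul_le_mul_of_nonneg_left (mul_le_mul_of_nonneg_left (Wp_anti hP _) hrt) hΓ
      show len z ^ γ * G (v - z) - len z ^ γ * F (w - z) ≤
        (o + Γ * rt o (v - w)) * (len z ^ γ * Wp q (v - z))
      calc len z ^ γ * G (v - z) - len z ^ γ * F (w - z)
          = len z ^ γ * (G (v - z) - F (w - z)) := by ring
        _ ≤ len z ^ γ * ((o + Γ * rt o (v - w)) * Wp q (v - z)) := by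
            refine mul_le_mul_of_nonneg_left ?_ a3
            nlinarith
        _ = _ := by ring
    rw [integral_const_mul] at e2
    have hs : 0 ≤ o + Γ * rt o (v - w) := add_nonneg h.o0.le (mul_nonneg hΓ hrt)
    have e3 : ∫ z, len z ^ γ * Wp q (v - z) ≤ K₂ :=
      iv.2.trans (by
        have := mul_le_mul_of_nonneg_left (zer_rpow h2 v) hK₂
        linarith)
    rw [e1]
    calc c₀ * ∫ z, (len z ^ γ * G (v - z) - len z ^ γ * F (w - z))
        ≤ c₀ * ((o + Γ * rt o (v - w)) * K₂) :=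
          mul_le_mul_of_nonneg_left (e2.trans (mul_le_mul_of_nonneg_left e3 hs)) hc
      _ = _ := by ring
  have p3 : (cb γ G v - cb γ F w) * F w ≤ c₀ * K₂ * (|C'| * 3 ^ P) * Br q P o Γ v w := by
    have hs : 0 ≤ o + Γ * rt o (v - w) := add_nonneg h.o0.le (mul_nonneg hΓ hrt)
    have f1 : F w ≤ |C'| * (3 ^ P * Wp P v) := by
      refine (FB.wp h.hF P w).trans ?_
      exact mul_le_mul (le_abs_self _) (Wp_cm h.near P) (Wp_pos P w).le (abs_nonneg _)
    have f2 : (o + Γ * rt o (v - w)) * Wp P v ≤ Br q P o Γ v w := by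
      unfold Br
      have := mul_le_mul_of_nonneg_left (Wp_anti hP v) h.o0.le
      nlinarith
    calc (cb γ G v - cb γ F w) * F w
        ≤ c₀ * K₂ * (o + Γ * rt o (v - w)) * F w := mul_le_mul_of_nonneg_right p2 (h.hF.nonneg w)
      _ ≤ c₀ * K₂ * (o + Γ * rt o (v - w)) * (|C'| * (3 ^ P * Wp P v)) :=
          mul_le_mul_of_nonneg_left f1 (by positivity)
      _ = c₀ * K₂ * (|C'| * 3 ^ P) * ((o + Γ * rt o (v - w)) * Wp P v) := by ring
      _ ≤ _ := mul_le_mul_of_nonneg_left f2 (by positivity)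
  calc cb γ G v * G v - cb γ F w * F w
      = cb γ G v * (G v - F w) + (cb γ G v - cb γ F w) * F w := by ring
    _ ≤ K₁ * |C| * Br q P o Γ v w + c₀ * K₂ * (|C'| * 3 ^ P) * Br q P o Γ v w := add_le_add p1 p3
    _ = _ := by ring

end Pool.Agent.H87.QL
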