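import Pool.Agent.H87.QL.Snd
import Pool.Agent.H87.QL.Mid
import Pool.Agent.H87.QL.SynI
import Pool.Agent.H87.QL.Mis
import Pool.Agent.H87.QL.Sml
import Pool.Agent.H87.QL.Zer
import Pool.Agent.H48.LN.Nd

/-!
# Module Op: the operator inequality at a touching pair

Constants: `K₁` (`snd`), `K₂` (`synI Cl`), `K₃` (`mis`), `K₄` (`zer`), `K₅` (`ab_bd`), `ε₁` from `sml` with `ε = 1/(K₃+1)`. `r = rt o (v-w)`, `W = Wp P v`, `b = 2Γ W/r > 0`, `κ = (1+Γ) o`, `A_G(v) = (ab γ G i j v)`.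
(1) `X i j = pd i (pd j G) v`, `Y i j = pd i (pd j F) w` symmetric (`hess_symm`), `E = K₁ Br/(1+nsq v)`, `X' = X - E 1`: `qf X' p = qf X p - E nsq p`, so `snd` gives the hypothesis of `mid`: `Z`.
(2) `ctr γ G G v = trp A_G(v) X = trp A_G(v) X' + E ∑_i A_G(v)_ii`, `∑_i A_ii ≤ d K₅ C (1+nsq v)` (`ab_bd`, `CW q C G`, `C = (d+1)^q Cl(2q)`): the `E` part is `≤ d K₅ C K₁ Br`.
(3) `trp A_G(v) X' - trp A_G(w) Z ≤ K₂ 2b nsq (v-w) ≤ 4 K₂ Γ W r` (`nsq (v-w) ≤ r²`), `≤ 4 K₂ Br`.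
(4) `mis` with `B = 2b`, `κ` (`TL.dif`), smallness by `sml`: `trp A_G(w) Z - trp A_F(w) Y ≤ K₃ κ² (1+nsq w)³ 4ΓW/r ≤ 4·27 K₃ (1+Γ)² Γ o (1+nsq v)³ W_P(v)` (`o/r ≤ 1`, `nsq_cm`), and `(1+nsq v)³ W_P ≤ W_q` (`P ≥ q+3`).
(5) `landau_nd`: `landauQ = ctr + cb * g`; `zer`. Sum.
-/

set_option autoImplicit false

open MeasureTheory Set Filter Topology Pool.Agent.H25.Kin Pool.Agent.H48.PR Pool.Agent.H48.LN
open Pool.Agent.H48.PD (FB)
open Pool.Agent.H15.AV (ab Good)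
open Pool.Agent.H15.KM (qf trp hess_symm)

namespace Pool.Agent.H87.QL

variable {d : ℕ} {γ : ℝ}

private lemma op_trace (h1 : -2 < γ) (h2 : γ ≤ 0) {q : ℕ} (hq : d + 2 ≤ q) (Cl : ℕ → ℝ) :
    ∃ K : ℝ, 0 ≤ K ∧ ∀ G : Vec d → ℝ, FB Cl G → ∀ v : Vec d,
      ∑ i, ab γ G i i v ≤ K * (1 + nsq v) := by
  obtain ⟨K, hK, h⟩ := ab_bd (d := d) h1 h2 hq
  refine ⟨d * (K * |((d : ℝ) + 1) ^ q * Cl (2 * q)|), by positivity, fun G hG v => ?_⟩
  have hcw : CW q (((d : ℝ) + 1) ^ q * Cl (2 * q)) G := ⟨hG.nice.cont, fun v => by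
    rw [abs_of_nonneg (hG.nonneg v)]
    exact FB.wp hG q v⟩
  have hv := sq_nonneg' v
  calc ∑ i, ab γ G i i v
      ≤ ∑ _i : Fin d, K * |((d : ℝ) + 1) ^ q * Cl (2 * q)| * (1 + nsq v) := by
        refine Finset.sum_le_sum fun i _ => (le_abs_self _).trans ((h _ G hcw i i v).trans ?_)
        refine mul_le_mul_of_nonneg_right ?_ (by positivity)
        exact mul_le_mul_of_nonneg_left (le_abs_self _) hK
    _ = _ := by
        rw [Finset.sum_const, Finset.card_univ, Fintype.card_fin, nsmul_eq_mul]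
        ring

private lemma op_qf (X : Fin d → Fin d → ℝ) (E : ℝ) (p : Vec d) :
    qf (fun i j => X i j - if i = j then E else 0) p = qf X p - E * nsq p := by
  unfold Pool.Agent.H15.KM.qf nsq
  rw [Finset.mul_sum, ← Finset.sum_sub_distrib]
  refine Finset.sum_congr rfl fun i _ => ?_
  have h : ∑ j, (if i = j then E else 0) * p i * p j = E * p i ^ 2 := by
    rw [Finset.sum_eq_single i]
    · simp only [if_true]; ring
    · intro j _ hj
      rw [if_neg (Ne.symm hj)]; ring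
    · intro hi
      exact absurd (Finset.mem_univ _) hi
  rw [← h, ← Finset.sum_sub_distrib]
  refine Finset.sum_congr rfl fun j _ => by ring

private lemma op_trp (A X : Fin d → Fin d → ℝ) (E : ℝ) :
    trp A X = trp A (fun i j => X i j - if i = j then E else 0) + E * ∑ i, A i i := by
  unfold trp
  rw [Finset.mul_sum, ← Finset.sum_add_distrib]
  refine Finset.sum_congr rfl fun i _ => ?_
  have h : ∑ j, A i j * (if i = j then E else 0) = E * A i i := by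
    rw [Finset.sum_eq_single i]
    · simp only [if_true]; ring
    · intro j _ hj
      rw [if_neg (Ne.symm hj)]; ring
    · intro hi
      exact absurd (Finset.mem_univ _) hi
  rw [← h, ← Finset.sum_add_distrib]
  refine Finset.sum_congr rfl fun j _ => by ring

private lemma op_W {q P : ℕ} (hP : q + 3 ≤ P) (v : Vec d) :
    (1 + nsq v) ^ 3 * Wp P v ≤ Wp q v := by
  have hv := sq_nonneg' v
  have h1 := Wp_anti hP v
  calc (1 + nsq v) ^ 3 * Wp P v ≤ (1 + nsq v) ^ 3 * Wp (q + 3) v :=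
        mul_le_mul_of_nonneg_left h1 (by positivity)
    _ = Wp q v := by
        unfold Wp
        rw [pow_add]
        field_simp

theorem op_L (hd : 2 ≤ d) (h1 : -2 < γ) (h2 : γ ≤ 0) {q P : ℕ} (hq : d + 2 ≤ q) (hP : q + 3 ≤ P)
    (Cl : ℕ → ℝ) {m : ℝ} (hm : 0 < m) (N : ℝ) : ∃ ε₁ > 0, ∃ K : ℝ, 0 ≤ K ∧
      ∀ (o Γ : ℝ) (F G : Vec d → ℝ) (v w : Vec d), TL Cl q P o Γ F G v w → Good m N F →
        (1 + Γ) ^ 2 * o ≤ ε₁ →
        landauQ γ G v - landauQ γ F w ≤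
          K * (Br q P o Γ v w + (1 + Γ) ^ 2 * Γ * o * Wp q v) := by
  obtain ⟨K₁, hK₁, hsnd⟩ := snd (d := d) q P
  obtain ⟨K₂, hK₂, hsyn⟩ := synI hd h1 h2 Cl
  obtain ⟨K₃, hK₃, hmis⟩ := mis hd h1 h2 hq hm N
  obtain ⟨K₄, hK₄, hzer⟩ := zer hd h1 h2 hq (by omega : q ≤ P) Cl
  obtain ⟨K₅, hK₅, htr⟩ := op_trace h1 h2 hq Cl
  obtain ⟨ε₁, hε₁, hsml⟩ := sml (d := d) q P Cl (show (0 : ℝ) < 1 / (K₃ + 1) by positivity)
  refine ⟨ε₁, hε₁, K₅ * K₁ + 4 * K₂ + 108 * K₃ + K₄, by positivity, ?_⟩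
  intro o Γ F G v w ht hg hsm
  have ho := ht.o0
  have hΓp : 0 < Γ := lt_of_lt_of_le one_pos ht.gam
  have hWP := Wp_pos P v
  have hWq := Wp_pos q v
  have hBr := Br_pos (q := q) (P := P) ho hΓp.le v w
  have hv := sq_nonneg' v
  have hw := sq_nonneg' w
  obtain ⟨r, hr⟩ : ∃ r : ℝ, r = rt o (v - w) := ⟨_, rfl⟩
  have hr0 : 0 < r := by rw [hr]; exact rt_pos ho _
  have hor : o ≤ r := by rw [hr]; exact o_le_rt _ _
  obtain ⟨X, hX⟩ : ∃ X : Fin d → Fin d → ℝ, X = fun i j => pd i (pd j G) v := ⟨_, rfl⟩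
  obtain ⟨Y, hY⟩ : ∃ Y : Fin d → Fin d → ℝ, Y = fun i j => pd i (pd j F) w := ⟨_, rfl⟩
  have hXs : ∀ i j, X i j = X j i := fun i j => by
    rw [hX]; exact hess_symm ht.hG.nice.smooth v i j
  have hYs : ∀ i j, Y i j = Y j i := fun i j => by
    rw [hY]; exact hess_symm ht.hF.nice.smooth w i j
  obtain ⟨b, hb⟩ : ∃ b : ℝ, b = 2 * Γ * Wp P v / r := ⟨_, rfl⟩
  have hb0 : 0 < b := by rw [hb]; positivity
  obtain ⟨E, hE⟩ : ∃ E : ℝ, E = K₁ * (Br q P o Γ v w / (1 + nsq v)) := ⟨_, rfl⟩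
  have hE0 : 0 ≤ E := by rw [hE]; positivity
  obtain ⟨X', hX'⟩ : ∃ X' : Fin d → Fin d → ℝ, X' = fun i j => X i j - if i = j then E else 0 :=
    ⟨_, rfl⟩
  have hXs' : ∀ i j, X' i j = X' j i := fun i j => by
    rw [hX']
    simp only
    rw [hXs i j]
    by_cases hij : i = j
    · rw [if_pos hij, if_pos hij.symm]
    · rw [if_neg hij, if_neg (Ne.symm hij)]
  have hXY : ∀ p g : Vec d, qf X' p - qf Y g ≤ b * nsq (p - g) := by
    intro p g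
    have h3 := hsnd Cl o Γ F G v w ht p g
    rw [← hX, ← hY, ← hr, ← hb, ← hE] at h3
    rw [hX', op_qf]
    linarith
  obtain ⟨Z, hZs, hZ1, hZ2⟩ := mid hb0 hXs' hXY
  have s1 := hsyn G ht.hG (2 * b) (by positivity) X' Z hZ1 v w
  have hκ : 0 ≤ (1 + Γ) * o := by positivity
  have hsm2 := hsml o Γ F G v w ht hsm
  have hsm3 : K₃ * ((1 + Γ) * o * (1 + nsq w) ^ 2) ≤ 1 := by
    calc K₃ * ((1 + Γ) * o * (1 + nsq w) ^ 2) ≤ K₃ * (1 / (K₃ + 1)) :=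
          mul_le_mul_of_nonneg_left hsm2 hK₃
      _ ≤ 1 := by
          rw [mul_one_div, div_le_one (by positivity)]
          linarith
  have s2 := hmis F G ht.hF.nice ht.hG.nice ht.hF.nonneg hg ((1 + Γ) * o) hκ
    (fun u => ht.dif (by omega) u) w hsm3 (2 * b) (by positivity) Z Y hZs hYs hZ2
  have s3 := htr G ht.hG v
  have s4 := hzer o Γ F G v w ht
  -- the estimates
  have hbr : b * r = 2 * Γ * Wp P v := by rw [hb]; field_simp
  have hBrE : Br q P o Γ v w = o * Wp q v + Γ * (r * Wp P v) := by rw [hr]; rfl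
  have n1 : nsq (v - w) ≤ r ^ 2 := by
    rw [hr, rt_sq]
    nlinarith [sq_nonneg o]
  have e1 : K₂ * (2 * b) * nsq (v - w) ≤ 4 * K₂ * Br q P o Γ v w := by
    have h3 : K₂ * (2 * b) * nsq (v - w) ≤ K₂ * (2 * b) * r ^ 2 :=
      mul_le_mul_of_nonneg_left n1 (by positivity)
    have h4 : K₂ * (2 * b) * r ^ 2 = 4 * K₂ * (Γ * (r * Wp P v)) := by
      calc K₂ * (2 * b) * r ^ 2 = 2 * K₂ * r * (b * r) := by ring
        _ = _ := by rw [hbr]; ring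
    have h5 : 4 * K₂ * (Γ * (r * Wp P v)) ≤ 4 * K₂ * Br q P o Γ v w := by
      refine mul_le_mul_of_nonneg_left ?_ (by positivity)
      rw [hBrE]
      have := mul_pos ho hWq
      linarith
    linarith
  have e2 : K₃ * (((1 + Γ) * o) ^ 2 * (1 + nsq w) ^ 3) * (2 * b) ≤
      108 * K₃ * ((1 + Γ) ^ 2 * Γ * o * Wp q v) := by
    have h3 : (1 + nsq w) ^ 3 ≤ 27 * (1 + nsq v) ^ 3 := by
      calc (1 + nsq w) ^ 3 ≤ (3 * (1 + nsq v)) ^ 3 :=
            pow_le_pow_left₀ (by positivity) (nsq_cm ht.near) 3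
        _ = _ := by ring
    have h4 : o * b ≤ 2 * Γ * Wp P v := by
      calc o * b ≤ r * b := mul_le_mul_of_nonneg_right hor hb0.le
        _ = _ := by rw [mul_comm]; exact hbr
    calc K₃ * (((1 + Γ) * o) ^ 2 * (1 + nsq w) ^ 3) * (2 * b)
        ≤ K₃ * (((1 + Γ) * o) ^ 2 * (27 * (1 + nsq v) ^ 3)) * (2 * b) := by gcongr
      _ = 54 * K₃ * (1 + Γ) ^ 2 * o * (1 + nsq v) ^ 3 * (o * b) := by ring
      _ ≤ 54 * K₃ * (1 + Γ) ^ 2 * o * (1 + nsq v) ^ 3 * (2 * Γ * Wp P v) := by gcongr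
      _ = 108 * K₃ * ((1 + Γ) ^ 2 * Γ * o) * ((1 + nsq v) ^ 3 * Wp P v) := by ring
      _ ≤ 108 * K₃ * ((1 + Γ) ^ 2 * Γ * o) * Wp q v :=
          mul_le_mul_of_nonneg_left (op_W hP v) (by positivity)
      _ = _ := by ring
  have e3 : E * ∑ i, ab γ G i i v ≤ K₅ * K₁ * Br q P o Γ v w := by
    calc E * ∑ i, ab γ G i i v ≤ E * (K₅ * (1 + nsq v)) := mul_le_mul_of_nonneg_left s3 hE0
      _ = K₅ * K₁ * Br q P o Γ v w := by
          rw [hE]
          field_simp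
  have e4 : ctr γ G G v = trp (fun i j => ab γ G i j v) X' + E * ∑ i, ab γ G i i v := by
    have h3 : ctr γ G G v = trp (fun i j => ab γ G i j v) X := by rw [hX]; rfl
    rw [h3, op_trp _ X E, ← hX']
  have e5 : ctr γ F F w = trp (fun i j => ab γ F i j w) Y := by rw [hY]; rfl
  rw [landau_nd hd h1 h2 ht.hG.nice v, landau_nd hd h1 h2 ht.hF.nice w, e4, e5]
  have hBr2 : 0 ≤ (1 + Γ) ^ 2 * Γ * o * Wp q v := by positivity
  have f1 : 0 ≤ K₅ * K₁ * ((1 + Γ) ^ 2 * Γ * o * Wp q v) := by positivity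
  have f2 : 0 ≤ K₂ * ((1 + Γ) ^ 2 * Γ * o * Wp q v) := by positivity
  have f3 : 0 ≤ K₄ * ((1 + Γ) ^ 2 * Γ * o * Wp q v) := by positivity
  have f4 : 0 ≤ K₃ * Br q P o Γ v w := by positivity
  nlinarith

end Pool.Agent.H87.QL
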