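import Pool.Agent.H87.QL.BrD

/-!
# Module Snd: the second order test at a touching point

`H(ε) = G(v+εp) - F(w+εg) - Br (v+εp) (w+εg) ≤ 0` for all `ε` (`up`), `H(0) = 0` (`tou`): a maximum at `0`. `G`, `F` are `C²` (`hG.nice.smooth`): derivatives along the lines by `line1`, `line2`; the barrier by `br_d2`. `sdt` (H15/KM/Tst): `H''(0) ≤ 0`. `K` = constant of `br_d2`.
-/

set_option autoImplicit false

open MeasureTheory Set Filter Topology Pool.Agent.H25.Kin Pool.Agent.H48.PR Pool.Agent.H48.LN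
open Pool.Agent.H48.PD (FB)
open Pool.Agent.H15.KM (qf trp line1 line2 sdt)

namespace Pool.Agent.H87.QL

variable {d : ℕ}

theorem snd (q P : ℕ) : ∃ K : ℝ, 0 ≤ K ∧ ∀ (Cl : ℕ → ℝ) (o Γ : ℝ) (F G : Vec d → ℝ) (v w : Vec d),
    TL Cl q P o Γ F G v w → ∀ p g : Vec d,
      qf (fun i j => pd i (pd j G) v) p - qf (fun i j => pd i (pd j F) w) g ≤
        2 * Γ * Wp P v / rt o (v - w) * nsq (p - g) +
          K * (Br q P o Γ v w / (1 + nsq v)) * nsq p := by
  obtain ⟨K, hK0, hK⟩ := br_d2 (d := d) q P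
  refine ⟨K, hK0, fun Cl o Γ F G v w h p g => ?_⟩
  obtain ⟨B1, B2, hB1, hB2, hle⟩ := hK o Γ h.o0 (zero_le_one.trans h.gam) v w p g
  have hG := h.hG.nice.smooth
  have hF := h.hF.nice.smooth
  have d1 : ∀ ε : ℝ, HasDerivAt
      (fun ε : ℝ => G (v + ε • p) - F (w + ε • g) - Br q P o Γ (v + ε • p) (w + ε • g))
      ((∑ j, p j * pd j G (v + ε • p)) - (∑ j, g j * pd j F (w + ε • g)) - B1 ε) ε := fun ε =>
    ((line1 hG v p ε).sub (line1 hF w g ε)).sub (hB1 ε)
  have d2 : HasDerivAt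
      (fun ε : ℝ => (∑ j, p j * pd j G (v + ε • p)) - (∑ j, g j * pd j F (w + ε • g)) - B1 ε)
      (qf (fun i j => pd i (pd j G) v) p - qf (fun i j => pd i (pd j F) w) g - B2) 0 :=
    ((line2 hG v p).sub (line2 hF w g)).sub hB2
  have hmax : IsLocalMax
      (fun ε : ℝ => G (v + ε • p) - F (w + ε • g) - Br q P o Γ (v + ε • p) (w + ε • g)) 0 := by
    refine Eventually.of_forall fun ε => ?_
    have h1 := h.up (v + ε • p) (w + ε • g)
    have h2 := h.tou
    show G (v + ε • p) - F (w + ε • g) - Br q P o Γ (v + ε • p) (w + ε • g) ≤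
      G (v + (0 : ℝ) • p) - F (w + (0 : ℝ) • g) - Br q P o Γ (v + (0 : ℝ) • p) (w + (0 : ℝ) • g)
    rw [zero_smul, zero_smul, add_zero, add_zero]
    linarith
  have h3 := sdt (Eventually.of_forall d1) d2 hmax
  linarith

end Pool.Agent.H87.QL
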