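import Pool.Agent.H15.KM.Defs
import Pool.Agent.H82.CM.CombG

/-!
# Module SynP: synchronous coupling, pointwise

`M(z)_ik = (if i = k then nsq z else 0) - z_i z_k`, `ρ(z) = nsq z ^ (γ/4 - 1/2)`, `s(z) = ρ(z) M(z)` (symmetric). `landauA γ z i j = M_ij nsq z ^ (γ/2)`. `α = 1 + γ/2 ∈ (0, 1]`, `r = len z`.
(1) `∑_k s_ik s_jk = landauA γ z i j`: `M² = nsq z M`; `ρ² nsq z = nsq z ^ (γ/2)` for `z ≠ 0`; both sides are `0` for `z = 0`.
(2) `∑∑ (s(z) - s(z'))_ik² ≤ (d+1) nsq (z-z') (len z ^ γ + len z' ^ γ)`. `∑∑ M_ik² = (d-1) nsq z ^ 2`, `∑∑ M_ik M'_ik = (d-2) nsq z nsq z' + (z·z')²`, `ρ nsq z = r ^ α`: left side `= (d-1)(r^α - r'^α)² + 2 ρρ' (nsq z nsq z' - (z·z')²)`.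
 First term, say `r ≥ r'` and `r > 0`: `0 ≤ r^α - r'^α ≤ r^(α-1) (r-r')` (`(r'/r)^α ≥ r'/r`), square: `≤ r^γ (r-r')² ≤ r^γ nsq (z-z')`. Second term: `nsq z nsq z' - (z·z')² ≤ r'² nsq (z-z')` (square of the distance of `z'`, `z` to a line: `nsq z nsq z' - (z·z')² = nsq (z-z') nsq z' - ((z-z')·z')²`),
 and for `r' > 0`: `ρρ' r'² = r^(α-2) r'^α ≤ r^(2α-2) = r^γ` (`r'^α ≤ r^α`). Total `≤ (d-1+2) nsq (z-z') r^γ`. If `r' = 0`: left side `= (d-1) r^(2α) = (d-1) nsq z r^γ`. If both are `0`: `0`. The case `r < r'` by symmetry.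
(3) With the vectors `p_k = (s(z)_ik)_i`, `g_k = (s(z')_ik)_i`: `trp (landauA γ z) X = ∑_k qf X p_k`, `trp (landauA γ z') Z = ∑_k qf Z g_k`, so the difference is `≤ B ∑_k nsq (p_k - g_k)`, then (2).
-/

set_option autoImplicit false

open MeasureTheory Set Filter Topology Pool.Agent.H25.Kin
open Pool.Agent.H15.KM (qf trp)

namespace Pool.Agent.H87.QL

variable {d : ℕ} {γ : ℝ}

private lemma SynP_nn (z : Vec d) : 0 ≤ nsq z := by
  unfold nsq
  exact Finset.sum_nonneg fun i _ => sq_nonneg _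

private def SynP_M (z : Vec d) (i k : Fin d) : ℝ := (if i = k then nsq z else 0) - z i * z k

private noncomputable def SynP_s (γ : ℝ) (z : Vec d) (i k : Fin d) : ℝ :=
  nsq z ^ (γ / 4 - 1 / 2) * SynP_M z i k

private def SynP_D (z z' : Vec d) : ℝ := ∑ i, z i * z' i

private lemma SynP_row (z : Vec d) (i j : Fin d) :
    ∑ k, SynP_M z i k * SynP_M z j k = nsq z * SynP_M z i j := by
  have h : ∀ k : Fin d, SynP_M z i k * SynP_M z j k =
      (if i = k then nsq z * (if j = k then nsq z else 0) else 0) -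
        (if i = k then nsq z * (z j * z k) else 0) - (if j = k then z i * z k * nsq z else 0) +
        z i * z j * z k ^ 2 := by
    intro k
    unfold SynP_M
    split_ifs <;> ring
  simp_rw [h]
  rw [Finset.sum_add_distrib, Finset.sum_sub_distrib, Finset.sum_sub_distrib, ← Finset.mul_sum,
    Finset.sum_ite_eq, Finset.sum_ite_eq, Finset.sum_ite_eq]
  simp only [Finset.mem_univ, if_true]
  have e : ∑ k, z k ^ 2 = nsq z := rfl
  rw [e]
  unfold SynP_M
  by_cases hij : i = j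
  · subst hij
    simp only [if_true]
    ring
  · rw [if_neg hij, if_neg (Ne.symm hij)]
    ring

private lemma SynP_MM (z z' : Vec d) :
    ∑ k, ∑ i, SynP_M z i k * SynP_M z' i k =
      ((d : ℝ) - 2) * (nsq z * nsq z') + SynP_D z z' ^ 2 := by
  have h : ∀ k i : Fin d, SynP_M z i k * SynP_M z' i k =
      (if i = k then nsq z * nsq z' - nsq z * (z' i * z' k) - nsq z' * (z i * z k) else 0) +
        (z k * z' k) * (z i * z' i) := by
    intro k i
    unfold SynP_M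
    split_ifs <;> ring
  simp_rw [h]
  simp_rw [Finset.sum_add_distrib, ← Finset.mul_sum]
  have e1 : ∀ k : Fin d, (∑ i, if i = k then nsq z * nsq z' - nsq z * (z' i * z' k) -
      nsq z' * (z i * z k) else 0) = nsq z * nsq z' - nsq z * z' k ^ 2 - nsq z' * z k ^ 2 := by
    intro k
    rw [Finset.sum_ite_eq']
    simp only [Finset.mem_univ, if_true]
    ring
  simp_rw [e1]
  have e2 : ∑ k, z k ^ 2 = nsq z := rfl
  have e3 : ∑ k, z' k ^ 2 = nsq z' := rfl
  have e4 : ∑ k, z k * z' k = SynP_D z z' := rfl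
  rw [Finset.sum_sub_distrib, Finset.sum_sub_distrib, Finset.sum_const, Finset.card_univ,
    Fintype.card_fin, nsmul_eq_mul, ← Finset.mul_sum, ← Finset.mul_sum, ← Finset.sum_mul,
    e2, e3, e4]
  ring

private lemma SynP_zero {z : Vec d} (h : nsq z = 0) : z = 0 := by
  funext i
  have h1 : z i ^ 2 ≤ nsq z := by
    unfold nsq
    exact Finset.single_le_sum (f := fun i => z i ^ 2) (fun i _ => sq_nonneg _) (Finset.mem_univ i)
  have h2 : z i ^ 2 = 0 := le_antisymm (h1.trans h.le) (sq_nonneg _)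
  simpa using h2

private lemma SynP_rho (hg : -2 < γ) (N : ℝ) (hN : 0 ≤ N) :
    N ^ (γ / 4 - 1 / 2) * N = N ^ (γ / 4 + 1 / 2) := by
  rcases hN.eq_or_lt with h0 | h0
  · rw [← h0, mul_zero, Real.zero_rpow (by linarith)]
  · rw [← Real.rpow_add_one h0.ne']
    congr 1
    ring

private lemma SynP_A (hg : -2 < γ) (z : Vec d) (i j : Fin d) :
    ∑ k, SynP_s γ z i k * SynP_s γ z j k = landauA γ z i j := by
  rcases (SynP_nn z).eq_or_lt with h0 | h0
  · have hz := SynP_zero h0.symm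
    subst hz
    have : nsq (0 : Vec d) = 0 := h0.symm
    simp [SynP_s, SynP_M, landauA, this]
  · have h : ∀ k : Fin d, SynP_s γ z i k * SynP_s γ z j k =
        (nsq z ^ (γ / 4 - 1 / 2)) ^ 2 * (SynP_M z i k * SynP_M z j k) := by
      intro k
      unfold SynP_s
      ring
    simp_rw [h]
    rw [← Finset.mul_sum, SynP_row]
    have e : (nsq z ^ (γ / 4 - 1 / 2)) ^ 2 * nsq z = nsq z ^ (γ / 2) := by
      rw [← Real.rpow_natCast, ← Real.rpow_mul h0.le, ← Real.rpow_add_one h0.ne']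
      congr 1
      push_cast
      ring
    rw [← mul_assoc, e]
    unfold landauA SynP_M
    ring

private lemma SynP_trp (hg : -2 < γ) (X : Fin d → Fin d → ℝ) (z : Vec d) :
    trp (landauA γ z) X = ∑ k, qf X (fun i => SynP_s γ z i k) := by
  unfold trp qf
  have h : ∀ i j : Fin d, landauA γ z i j * X i j =
      ∑ k, X i j * SynP_s γ z i k * SynP_s γ z j k := by
    intro i j
    rw [← SynP_A hg, Finset.sum_mul]
    refine Finset.sum_congr rfl fun k _ => ?_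
    ring
  simp_rw [h]
  calc ∑ i, ∑ j, ∑ k, X i j * SynP_s γ z i k * SynP_s γ z j k
      = ∑ i, ∑ k, ∑ j, X i j * SynP_s γ z i k * SynP_s γ z j k :=
        Finset.sum_congr rfl fun i _ => Finset.sum_comm
    _ = _ := Finset.sum_comm

private lemma SynP_D_le (z z' : Vec d) : SynP_D z z' ^ 2 ≤ nsq z * nsq z' := by
  unfold SynP_D nsq
  exact Finset.sum_mul_sq_le_sq_mul_sq _ _ _

private lemma SynP_nsub (z z' : Vec d) : nsq (z - z') = nsq z + nsq z' - 2 * SynP_D z z' := by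
  unfold nsq SynP_D
  rw [Finset.mul_sum, ← Finset.sum_add_distrib, ← Finset.sum_sub_distrib]
  refine Finset.sum_congr rfl fun i _ => ?_
  rw [Pi.sub_apply]
  ring

private lemma SynP_Gram (z z' : Vec d) :
    nsq z * nsq z' - SynP_D z z' ^ 2 ≤ nsq z' * nsq (z - z') := by
  have h : SynP_D (z - z') z' = SynP_D z z' - nsq z' := by
    unfold SynP_D nsq
    rw [← Finset.sum_sub_distrib]
    refine Finset.sum_congr rfl fun i _ => ?_
    rw [Pi.sub_apply]
    ring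
  have h2 := sq_nonneg (SynP_D (z - z') z')
  rw [h] at h2
  rw [SynP_nsub]
  nlinarith

/-- the exact formula -/
private lemma SynP_eq (hg : -2 < γ) (z z' : Vec d) :
    ∑ k, ∑ i, (SynP_s γ z i k - SynP_s γ z' i k) ^ 2 =
      ((d : ℝ) - 1) * (nsq z ^ (γ / 4 + 1 / 2) - nsq z' ^ (γ / 4 + 1 / 2)) ^ 2 +
        2 * (nsq z ^ (γ / 4 - 1 / 2) * nsq z' ^ (γ / 4 - 1 / 2)) *
          (nsq z * nsq z' - SynP_D z z' ^ 2) := by
  have h : ∀ k i : Fin d, (SynP_s γ z i k - SynP_s γ z' i k) ^ 2 =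
      (nsq z ^ (γ / 4 - 1 / 2)) ^ 2 * (SynP_M z i k * SynP_M z i k) +
      (nsq z' ^ (γ / 4 - 1 / 2)) ^ 2 * (SynP_M z' i k * SynP_M z' i k) -
      (2 * (nsq z ^ (γ / 4 - 1 / 2) * nsq z' ^ (γ / 4 - 1 / 2))) * (SynP_M z i k * SynP_M z' i k) := by
    intro k i
    unfold SynP_s
    ring
  simp_rw [h]
  simp_rw [Finset.sum_sub_distrib, Finset.sum_add_distrib, ← Finset.mul_sum]
  rw [SynP_MM, SynP_MM, SynP_MM]
  have e1 : ∀ w : Vec d, SynP_D w w = nsq w := by
    intro w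
    unfold SynP_D nsq
    exact Finset.sum_congr rfl fun i _ => by ring
  rw [e1, e1, ← SynP_rho hg _ (SynP_nn z), ← SynP_rho hg _ (SynP_nn z')]
  ring

private lemma SynP_main1 (h1 : -2 < γ) (h2 : γ ≤ 0) (hd : 1 ≤ d) (z z' : Vec d)
    (hle : nsq z' ≤ nsq z) :
    ∑ k, ∑ i, (SynP_s γ z i k - SynP_s γ z' i k) ^ 2 ≤
      ((d : ℝ) + 1) * nsq (z - z') * len z ^ γ := by
  have hd1 : (1 : ℝ) ≤ d := by exact_mod_cast hd
  have hn := SynP_nn z
  have hn' := SynP_nn z'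
  have hr : 0 ≤ len z := Real.sqrt_nonneg _
  have hr' : 0 ≤ len z' := Real.sqrt_nonneg _
  have hrr : len z' ≤ len z := Real.sqrt_le_sqrt hle
  have hz2 : len z ^ 2 = nsq z := Real.sq_sqrt hn
  have hz2' : len z' ^ 2 = nsq z' := Real.sq_sqrt hn'
  rw [SynP_eq h1]
  rcases hn.eq_or_lt with h0 | h0
  · have h0' : nsq z' = 0 := le_antisymm (hle.trans h0.symm.le) hn'
    rw [← h0, h0', Real.zero_rpow (by linarith)]
    have a1 : 0 ≤ (0 : ℝ) ^ (γ / 4 - 1 / 2) := Real.rpow_nonneg le_rfl _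
    have a2 : 0 ≤ ((d : ℝ) + 1) * nsq (z - z') * len z ^ γ :=
      mul_nonneg (mul_nonneg (by linarith) (SynP_nn _)) (Real.rpow_nonneg hr _)
    have a3 := mul_nonneg (mul_nonneg a1 a1) (sq_nonneg (SynP_D z z'))
    nlinarith
  have hrp : 0 < len z := Real.sqrt_pos.2 h0
  have hpow : ∀ e : ℝ, nsq z ^ e = len z ^ (2 * e) := by
    intro e
    rw [← hz2, ← Real.rpow_natCast, ← Real.rpow_mul hr]
    norm_num
  have hpow' : ∀ e : ℝ, nsq z' ^ e = len z' ^ (2 * e) := by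
    intro e
    rw [← hz2', ← Real.rpow_natCast, ← Real.rpow_mul hr']
    norm_num
  -- first term
  have t1 : (nsq z ^ (γ / 4 + 1 / 2) - nsq z' ^ (γ / 4 + 1 / 2)) ^ 2 ≤ nsq (z - z') * len z ^ γ := by
    rw [hpow, hpow']
    have e2 : 2 * (γ / 4 + 1 / 2) = 1 + γ / 2 := by ring
    rw [e2]
    have b1 : len z' ^ (1 + γ / 2) ≤ len z ^ (1 + γ / 2) :=
      Real.rpow_le_rpow hr' hrr (by linarith)
    have b2 : len z ^ (γ / 2) * len z' ≤ len z' ^ (1 + γ / 2) := by
      rcases hr'.eq_or_lt with g0 | g0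
      · rw [← g0, mul_zero]
        exact Real.rpow_nonneg le_rfl _
      · rw [Real.rpow_add g0, Real.rpow_one, mul_comm]
        exact mul_le_mul_of_nonneg_left (Real.rpow_le_rpow_of_nonpos g0 hrr (by linarith)) g0.le
    have b3 : len z ^ (1 + γ / 2) = len z ^ (γ / 2) * len z := by
      rw [Real.rpow_add hrp, Real.rpow_one, mul_comm]
    have b4 : 0 ≤ len z ^ (1 + γ / 2) - len z' ^ (1 + γ / 2) := by linarith
    have b5 : len z ^ (1 + γ / 2) - len z' ^ (1 + γ / 2) ≤ len z ^ (γ / 2) * (len z - len z') := by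
      rw [b3, mul_sub]
      linarith
    have b6 : (len z ^ (γ / 2)) ^ 2 = len z ^ γ := by
      rw [← Real.rpow_natCast, ← Real.rpow_mul hr]
      congr 1
      push_cast
      ring
    have b7 : (len z - len z') ^ 2 ≤ nsq (z - z') := by
      rw [SynP_nsub]
      have c1 : SynP_D z z' ≤ len z * len z' := by
        have := SynP_D_le z z'
        rw [← hz2, ← hz2', ← mul_pow] at this
        exact le_trans (le_abs_self _) (abs_le_of_sq_le_sq this (by positivity))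
      nlinarith
    calc (len z ^ (1 + γ / 2) - len z' ^ (1 + γ / 2)) ^ 2
        ≤ (len z ^ (γ / 2) * (len z - len z')) ^ 2 := pow_le_pow_left₀ b4 b5 2
      _ = (len z - len z') ^ 2 * len z ^ γ := by rw [mul_pow, b6, mul_comm]
      _ ≤ _ := mul_le_mul_of_nonneg_right b7 (Real.rpow_nonneg hr _)
  -- second term
  have t2 : (nsq z ^ (γ / 4 - 1 / 2) * nsq z' ^ (γ / 4 - 1 / 2)) *
      (nsq z * nsq z' - SynP_D z z' ^ 2) ≤ nsq (z - z') * len z ^ γ := by
    have c0 : 0 ≤ nsq z ^ (γ / 4 - 1 / 2) * nsq z' ^ (γ / 4 - 1 / 2) :=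
      mul_nonneg (Real.rpow_nonneg hn _) (Real.rpow_nonneg hn' _)
    have c1 := mul_le_mul_of_nonneg_left (SynP_Gram z z') c0
    refine c1.trans ?_
    have c2 : (nsq z ^ (γ / 4 - 1 / 2) * nsq z' ^ (γ / 4 - 1 / 2)) * (nsq z' * nsq (z - z')) =
        nsq (z - z') * (nsq z ^ (γ / 4 - 1 / 2) * (nsq z' ^ (γ / 4 - 1 / 2) * nsq z')) := by ring
    rw [c2, SynP_rho h1 _ hn']
    refine mul_le_mul_of_nonneg_left ?_ (SynP_nn _)
    have c3 : nsq z' ^ (γ / 4 + 1 / 2) ≤ nsq z ^ (γ / 4 + 1 / 2) :=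
      Real.rpow_le_rpow hn' hle (by linarith)
    calc nsq z ^ (γ / 4 - 1 / 2) * nsq z' ^ (γ / 4 + 1 / 2)
        ≤ nsq z ^ (γ / 4 - 1 / 2) * nsq z ^ (γ / 4 + 1 / 2) :=
          mul_le_mul_of_nonneg_left c3 (Real.rpow_nonneg hn _)
      _ = nsq z ^ (γ / 2) := by
          rw [← Real.rpow_add h0]
          congr 1
          ring
      _ = len z ^ γ := by
          rw [hpow]
          congr 1
          ring
      _ ≤ _ := le_rfl
  have t3 := mul_le_mul_of_nonneg_left t1 (by linarith : 0 ≤ (d : ℝ) - 1)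
  nlinarith

private lemma SynP_main (h1 : -2 < γ) (h2 : γ ≤ 0) (z z' : Vec d) :
    ∑ k, ∑ i, (SynP_s γ z i k - SynP_s γ z' i k) ^ 2 ≤
      ((d : ℝ) + 1) * nsq (z - z') * (len z ^ γ + len z' ^ γ) := by
  have p0 : 0 ≤ ((d : ℝ) + 1) * nsq (z - z') := mul_nonneg (by positivity) (SynP_nn _)
  have p1 : 0 ≤ len z ^ γ := Real.rpow_nonneg (Real.sqrt_nonneg _) _
  have p2 : 0 ≤ len z' ^ γ := Real.rpow_nonneg (Real.sqrt_nonneg _) _
  rcases Nat.eq_zero_or_pos d with hd | hd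
  · subst hd
    rw [Finset.univ_eq_empty, Finset.sum_empty]
    exact mul_nonneg p0 (add_nonneg p1 p2)
  rcases le_total (nsq z') (nsq z) with hle | hle
  · refine (SynP_main1 h1 h2 hd z z' hle).trans ?_
    exact mul_le_mul_of_nonneg_left (by linarith) p0
  · have h := SynP_main1 h1 h2 hd z' z hle
    have e1 : ∑ k, ∑ i, (SynP_s γ z i k - SynP_s γ z' i k) ^ 2 =
        ∑ k, ∑ i, (SynP_s γ z' i k - SynP_s γ z i k) ^ 2 :=
      Finset.sum_congr rfl fun k _ => Finset.sum_congr rfl fun i _ => by ring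
    have e2 : nsq (z' - z) = nsq (z - z') := by
      unfold nsq
      refine Finset.sum_congr rfl fun i _ => ?_
      rw [Pi.sub_apply, Pi.sub_apply]
      ring
    rw [e1]
    rw [e2] at h
    refine h.trans ?_
    exact mul_le_mul_of_nonneg_left (by linarith) p0

theorem synP (h1 : -2 < γ) (h2 : γ ≤ 0) {B : ℝ} (hB : 0 ≤ B) {X Z : Fin d → Fin d → ℝ}
    (h : ∀ p g : Vec d, qf X p - qf Z g ≤ B * nsq (p - g)) (z z' : Vec d) :
    trp (landauA γ z) X - trp (landauA γ z') Z ≤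
      B * (((d : ℝ) + 1) * nsq (z - z') * (len z ^ γ + len z' ^ γ)) := by
  rw [SynP_trp h1, SynP_trp h1, ← Finset.sum_sub_distrib]
  calc ∑ k, (qf X (fun i => SynP_s γ z i k) - qf Z (fun i => SynP_s γ z' i k))
      ≤ ∑ k, B * ∑ i, (SynP_s γ z i k - SynP_s γ z' i k) ^ 2 := by
        refine Finset.sum_le_sum fun k _ => ?_
        exact h (fun i => SynP_s γ z i k) (fun i => SynP_s γ z' i k)
    _ = B * ∑ k, ∑ i, (SynP_s γ z i k - SynP_s γ z' i k) ^ 2 := by rw [Finset.mul_sum]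
    _ ≤ _ := mul_le_mul_of_nonneg_left (SynP_main h1 h2 z z') hB

end Pool.Agent.H87.QL
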